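import Mathlib

/-! The hexagonal planes. -/

set_option autoImplicit false
set_option linter.all false

namespace Pool.Agent.R928.GF

/-- the parameters -/
noncomputable def sp (k : ℕ) : ℝ := 1 - 1 / ((k : ℝ) + 3)

theorem sp_lt (k : ℕ) : sp k < 1 := by
  unfold sp
  have : 0 < 1 / ((k : ℝ) + 3) := by positivity
  linarith

theorem sp_ge (k : ℕ) : 2 / 3 ≤ sp k := by
  unfold sp
  have h : 1 / ((k : ℝ) + 3) ≤ 1 / 3 := by
    apply div_le_div_of_nonneg_left (by norm_num) (by norm_num)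
    have : (0 : ℝ) ≤ k := Nat.cast_nonneg k
    linarith
  linarith

theorem sp_sep (j k : ℕ) (h : k ≠ j) : 1 / (((j : ℝ) + 3) * (j + 4)) ≤ |sp k - sp j| := by
  unfold sp
  have hj : (0 : ℝ) < (j : ℝ) + 3 := by positivity
  have hk : (0 : ℝ) < (k : ℝ) + 3 := by positivity
  have e : 1 - 1 / ((k : ℝ) + 3) - (1 - 1 / ((j : ℝ) + 3)) = ((k : ℝ) - j) / (((j : ℝ) + 3) * (k + 3)) := by
    field_simp
    ring
  rw [e, abs_div, abs_of_pos (show 0 < ((j : ℝ) + 3) * (k + 3) by positivity)]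
  rw [div_le_div_iff₀ (by positivity) (by positivity)]
  rcases lt_or_gt_of_ne h with hlt | hgt
  · have h1 : (k : ℝ) + 1 ≤ j := by exact_mod_cast hlt
    rw [abs_of_nonpos (by linarith)]
    nlinarith [mul_nonneg (show (0 : ℝ) ≤ (j : ℝ) - k - 1 by linarith) hj.le]
  · have h1 : (j : ℝ) + 1 ≤ k := by exact_mod_cast hgt
    rw [abs_of_nonneg (by linarith)]
    have h2 : 0 ≤ ((k : ℝ) - j - 1) * (((j : ℝ) + 3) * (j + 4)) := mul_nonneg (by linarith) (by positivity)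
    have h3 : ((k : ℝ) + 3) = (j + 4) + (k - j - 1) := by ring
    nlinarith [mul_nonneg (show (0 : ℝ) ≤ (k : ℝ) - j - 1 by linarith) hj.le, mul_nonneg (show (0 : ℝ) ≤ (k : ℝ) - j - 1 by linarith) (show (0 : ℝ) ≤ (j : ℝ) by positivity)]

/-- the plane with norm `max |x| |y| (s |x + y|)` -/
noncomputable def Bk (k : ℕ) : Submodule ℝ (Fin 3 → ℝ) where
  carrier := {v | v 2 = sp k * (v 0 + v 1)}
  add_mem' := by
    intro v w hv hw
    simp only [Set.mem_setOf_eq, Pi.add_apply] at *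
    rw [hv, hw]; ring
  zero_mem' := by simp
  smul_mem' := by
    intro c v hv
    simp only [Set.mem_setOf_eq, Pi.smul_apply, smul_eq_mul] at *
    rw [hv]; ring

theorem Bk_two {k : ℕ} (v : Bk k) : v.1 2 = sp k * (v.1 0 + v.1 1) := v.2

/-- the vector `(a, b)` -/
noncomputable def bv (k : ℕ) (a b : ℝ) : Bk k :=
  ⟨![a, b, sp k * (a + b)], by
    change (![a, b, sp k * (a + b)] : Fin 3 → ℝ) 2 = sp k * ((![a, b, sp k * (a + b)] : Fin 3 → ℝ) 0 + (![a, b, sp k * (a + b)] : Fin 3 → ℝ) 1)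
    simp⟩

theorem bv_0 (k : ℕ) (a b : ℝ) : (bv k a b).1 0 = a := rfl
theorem bv_1 (k : ℕ) (a b : ℝ) : (bv k a b).1 1 = b := rfl
theorem bv_2 (k : ℕ) (a b : ℝ) : (bv k a b).1 2 = sp k * (a + b) := rfl

theorem Bk_ext {k : ℕ} {v w : Bk k} (h0 : v.1 0 = w.1 0) (h1 : v.1 1 = w.1 1) : v = w := by
  apply Subtype.ext
  funext i
  fin_cases i
  · exact h0
  · exact h1
  · change v.1 2 = w.1 2
    rw [Bk_two, Bk_two, h0, h1]

theorem coord_le {k : ℕ} (v : Bk k) (i : Fin 3) : |v.1 i| ≤ ‖v‖ := by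
  have := norm_le_pi_norm v.1 i
  rwa [Real.norm_eq_abs] at this

theorem norm_le_of {k : ℕ} (v : Bk k) (c : ℝ) (h0 : |v.1 0| ≤ c) (h1 : |v.1 1| ≤ c) (h2 : |v.1 2| ≤ c) : ‖v‖ ≤ c := by
  change ‖v.1‖ ≤ c
  rw [pi_norm_le_iff_of_nonneg ((abs_nonneg _).trans h0)]
  intro i
  rw [Real.norm_eq_abs]
  fin_cases i
  · exact h0
  · exact h1
  · exact h2

theorem exists_coord {k : ℕ} (v : Bk k) : ∃ i : Fin 3, |v.1 i| = ‖v‖ := by
  by_contra hcon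
  push Not at hcon
  have h : ∀ i, |v.1 i| < ‖v‖ := fun i => lt_of_le_of_ne (coord_le v i) (hcon i)
  have hpos : 0 < ‖v‖ := lt_of_le_of_lt (abs_nonneg _) (h 0)
  have : ‖v.1‖ < ‖v‖ := by
    rw [pi_norm_lt_iff hpos]
    intro i
    rw [Real.norm_eq_abs]
    exact h i
  exact lt_irrefl _ this

/-- the edge principle -/
theorem edge_pt {k : ℕ} (u v m : Bk k) (hm : ∀ i, 2 * m.1 i = u.1 i + v.1 i) (c d : ℝ) (hu : |‖u‖ - c| ≤ d) (hv : |‖v‖ - c| ≤ d)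
    (hmm : |‖m‖ - c| ≤ d) : ∃ (i : Fin 3) (e : ℝ), (e = 1 ∨ e = -1) ∧ c - 3 * d ≤ e * u.1 i ∧ e * u.1 i ≤ c + d ∧
      c - 3 * d ≤ e * v.1 i ∧ e * v.1 i ≤ c + d := by
  obtain ⟨i, hi⟩ := exists_coord m
  have h1 := coord_le u i
  have h2 := coord_le v i
  rw [abs_le] at hu hv hmm h1 h2
  have h3 := hm i
  rcases abs_cases (m.1 i) with ⟨h4, h5⟩ | ⟨h4, h5⟩
  · refine ⟨i, 1, Or.inl rfl, ?_, ?_, ?_, ?_⟩ <;> rw [one_mul] <;> linarith
  · refine ⟨i, -1, Or.inr rfl, ?_, ?_, ?_, ?_⟩ <;> linarith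

theorem rbound (r x y b : ℝ) (hr0 : 0 ≤ r) (hr1 : r ≤ 1) (hb : 0 ≤ b) (h1 : x - y ≤ b) (h2 : y - x ≤ b) :
    r * x - r * y ≤ b ∧ r * y - r * x ≤ b := by
  constructor
  · nlinarith [mul_le_mul_of_nonneg_left h1 hr0]
  · nlinarith [mul_le_mul_of_nonneg_left h2 hr0]

theorem fact1 (c d t p q e : ℝ) (he : e = 1 ∨ e = -1) (ht : 0 < t) (hd : 0 ≤ d)
    (a1 : c - 3 * d ≤ e * (p - q)) (a2 : e * (p - q) ≤ c + d)
    (a3 : c - 3 * d ≤ e * (p + t * q)) (a4 : e * (p + t * q) ≤ c + d) : |q| ≤ 4 * d ∧ |p - e * c| ≤ 7 * d := by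
  have h1 : |(1 + t) * q| ≤ 4 * d := by
    rw [abs_le]
    rcases he with h | h <;> rw [h] at a1 a2 a3 a4 <;> constructor <;> linarith
  have h2 : |q| ≤ 4 * d := by
    rw [abs_mul, abs_of_pos (by linarith : (0 : ℝ) < 1 + t)] at h1
    nlinarith [mul_nonneg ht.le (abs_nonneg q)]
  refine ⟨h2, ?_⟩
  rw [abs_le] at h2 ⊢
  rcases he with h | h <;> rw [h] at a1 a2 ⊢ <;> constructor <;> linarith [h2.1, h2.2]

theorem fact2 (s c d t p q e : ℝ) (he : e = 1 ∨ e = -1) (ht : 0 < t) (ht1 : t ≤ 1 / 2) (hs : 0 < s) (hs1 : s < 1) (hst : s * (1 + t) = 1)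
    (hd : 0 ≤ d) (b1 : c - 3 * d ≤ e * (p + t * q)) (b2 : e * (p + t * q) ≤ c + d)
    (b3 : c - 3 * d ≤ e * (t * p + q)) (b4 : e * (t * p + q) ≤ c + d) :
    |p - e * (s * c)| ≤ 7 * d ∧ |q - e * (s * c)| ≤ 7 * d := by
  have g1 : |(1 - t) * (p - q)| ≤ 4 * d := by
    rw [abs_le]
    rcases he with h | h <;> rw [h] at b1 b2 b3 b4 <;> constructor <;> linarith
  rw [abs_mul, abs_of_pos (by linarith : (0 : ℝ) < 1 - t)] at g1
  have g2 : |p - q| ≤ 8 * d := by nlinarith [mul_nonneg (show (0 : ℝ) ≤ 1 / 2 - t by linarith) (abs_nonneg (p - q))]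
  have g6 : s * (e * ((1 + t) * (p + q))) = e * (p + q) := by
    calc s * (e * ((1 + t) * (p + q))) = (s * (1 + t)) * (e * (p + q)) := by ring
      _ = _ := by rw [hst, one_mul]
  have hsd : s * d ≤ d := by nlinarith
  have g3 : 2 * (s * c) - 6 * d ≤ e * (p + q) := by
    have g4 : 2 * c - 6 * d ≤ e * ((1 + t) * (p + q)) := by linarith
    have g5 : s * (2 * c - 6 * d) ≤ s * (e * ((1 + t) * (p + q))) := mul_le_mul_of_nonneg_left g4 hs.le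
    rw [g6] at g5
    linarith
  have g7 : e * (p + q) ≤ 2 * (s * c) + 2 * d := by
    have g4 : e * ((1 + t) * (p + q)) ≤ 2 * c + 2 * d := by linarith
    have g5 : s * (e * ((1 + t) * (p + q))) ≤ s * (2 * c + 2 * d) := mul_le_mul_of_nonneg_left g4 hs.le
    rw [g6] at g5
    linarith
  rw [abs_le] at g2
  rw [abs_le, abs_le]
  rcases he with h | h <;> rw [h] at g3 g7 ⊢ <;> refine ⟨⟨?_, ?_⟩, ⟨?_, ?_⟩⟩ <;> linarith [g2.1, g2.2]

theorem fact3 (r s c d X e1 e2 : ℝ) (he1 : e1 = 1 ∨ e1 = -1) (he2 : e2 = 1 ∨ e2 = -1) (hr0 : 0 ≤ r) (hr1 : r ≤ 1)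
    (hs0 : 0 < s) (hs1 : s < 1) (hc : 0 < c) (hd : 0 ≤ d) (hcs : 18 * d < (1 - s) * c)
    (h1 : |r * X - e1 * c| ≤ 7 * d) (h2 : |X - e2 * (s * c)| ≤ 11 * d) : False := by
  rw [abs_le] at h1 h2
  have hb := rbound r X (e2 * (s * c)) (11 * d) hr0 hr1 (by linarith) (by linarith [h2.2]) (by linarith [h2.1])
  have hsc : 0 ≤ s * c := by positivity
  have hrs : r * (s * c) ≤ s * c := by nlinarith
  have hrs0 : 0 ≤ r * (s * c) := by positivity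
  rcases he1 with h | h <;> rcases he2 with h' | h' <;> rw [h] at h1 <;> rw [h'] at hb <;>
    linarith [h1.1, h1.2, hb.1, hb.2]

theorem fact4 (r s c d X e1 e2 : ℝ) (he1 : e1 = 1 ∨ e1 = -1) (he2 : e2 = 1 ∨ e2 = -1) (hr0 : 2 / 3 ≤ r) (hr1 : r ≤ 1)
    (hs0 : 2 / 3 ≤ s) (hc : 0 < c) (hd : 0 ≤ d) (hcs : 90 * d < c)
    (h1 : |r * X - e2 * (s * c)| ≤ 7 * d) (h2 : |X - e1 * c| ≤ 11 * d) : e1 = e2 ∧ |r - s| * c ≤ 18 * d := by
  rw [abs_le] at h1 h2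
  have hb := rbound r X (e1 * c) (11 * d) (by linarith) hr1 (by linarith) (by linarith [h2.2]) (by linarith [h2.1])
  have hsc : 2 / 3 * c ≤ s * c := mul_le_mul_of_nonneg_right hs0 hc.le
  have hrc : 2 / 3 * c ≤ r * c := mul_le_mul_of_nonneg_right hr0 hc.le
  have he : e1 = e2 := by
    rcases he1 with h | h <;> rcases he2 with h' | h'
    · rw [h, h']
    · exfalso; rw [h'] at h1; rw [h] at hb; linarith [h1.1, h1.2, hb.1, hb.2]
    · exfalso; rw [h'] at h1; rw [h] at hb; linarith [h1.1, h1.2, hb.1, hb.2]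
    · rw [h, h']
  refine ⟨he, ?_⟩
  rw [he] at hb
  have : |(r - s) * c| ≤ 18 * d := by
    rw [abs_le]
    rcases he2 with h' | h' <;> rw [h'] at hb h1 <;> constructor <;> linarith [h1.1, h1.2, hb.1, hb.2]
  rwa [abs_mul, abs_of_pos hc] at this

theorem fin3_sum (f : Fin 3 → ℝ) (i j : Fin 3) (hij : i ≠ j) (hi : i ≠ 2) (hj : j ≠ 2) : f 0 + f 1 = f i + f j := by
  fin_cases i <;> fin_cases j <;> simp at hij hi hj ⊢
  exact add_comm _ _

theorem fin3_two (i j k : Fin 3) (hij : i ≠ j) (hjk : j ≠ k) (hik : i ≠ k) (hj : j ≠ 2) : i = 2 ∨ k = 2 := by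
  fin_cases i <;> fin_cases j <;> fin_cases k <;> simp at hij hjk hik hj ⊢

theorem fin3_01 (i j : Fin 3) (hij : i ≠ j) (hi : i ≠ 2) (hj : j ≠ 2) : (i = 0 ∧ j = 1) ∨ (i = 1 ∧ j = 0) := by
  fin_cases i <;> fin_cases j <;> simp at hij hi hj ⊢

/-- Lemma 2: almost constant norms on the hexagon force the map to be close to a multiple of a symmetry. -/
theorem two (j k : ℕ) (p q : Bk k) (c d : ℝ)
    (hv1 : |‖(1 : ℝ) • p + (-1 : ℝ) • q‖ - c| ≤ d)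
    (hv2 : |‖(1 : ℝ) • p + (1 / sp j - 1) • q‖ - c| ≤ d)
    (hv3 : |‖(1 / sp j - 1) • p + (1 : ℝ) • q‖ - c| ≤ d)
    (hm1 : |‖(1 : ℝ) • p + ((1 / sp j - 1 - 1) / 2) • q‖ - c| ≤ d)
    (hm2 : |‖((1 + (1 / sp j - 1)) / 2) • p + ((1 + (1 / sp j - 1)) / 2) • q‖ - c| ≤ d)
    (hm3 : |‖((1 / sp j - 1 - 1) / 2) • p + (1 : ℝ) • q‖ - c| ≤ d)
    (hd : d < (1 - sp j) / 30 * c) :
    |sp k - sp j| * c ≤ 18 * d ∧
    ∃ e : ℝ, (e = 1 ∨ e = -1) ∧
      ((|p.1 0 - e * c| ≤ 7 * d ∧ |p.1 1| ≤ 7 * d ∧ |q.1 0| ≤ 7 * d ∧ |q.1 1 - e * c| ≤ 7 * d) ∨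
       (|p.1 0| ≤ 7 * d ∧ |p.1 1 - e * c| ≤ 7 * d ∧ |q.1 0 - e * c| ≤ 7 * d ∧ |q.1 1| ≤ 7 * d)) := by
  set s := sp j with hs
  set r := sp k with hr
  have hs1 : s < 1 := sp_lt j
  have hs0 : 2 / 3 ≤ s := sp_ge j
  have hr1 : r < 1 := sp_lt k
  have hr0 : 2 / 3 ≤ r := sp_ge k
  have hsp : (0 : ℝ) < s := by linarith
  set t : ℝ := 1 / s - 1 with ht
  have hst : s * (1 + t) = 1 := by rw [ht]; field_simp; ring
  have ht0 : 0 < t := by
    rw [ht, sub_pos, lt_div_iff₀ hsp]; linarith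
  have ht1 : t ≤ 1 / 2 := by
    have : 1 / s ≤ 3 / 2 := by rw [div_le_iff₀ hsp]; linarith
    linarith
  have hd0 : 0 ≤ d := (abs_nonneg _).trans hv1
  have hc : 0 < c := by
    by_contra hcon
    push Not at hcon
    have : (1 - s) / 30 * c ≤ 0 := mul_nonpos_of_nonneg_of_nonpos (by linarith) hcon
    linarith
  have hdc : 90 * d < c := by
    have : (1 - s) / 30 * c ≤ 1 / 90 * c := by
      apply mul_le_mul_of_nonneg_right _ hc.le
      linarith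
    linarith
  -- the three edges
  obtain ⟨i1, e1, he1, a1, a2, a3, a4⟩ := edge_pt ((1 : ℝ) • p + (-1 : ℝ) • q) ((1 : ℝ) • p + t • q)
    ((1 : ℝ) • p + ((t - 1) / 2) • q) (by intro i; simp; ring) c d hv1 hv2 hm1
  obtain ⟨i2, e2, he2, b1, b2, b3, b4⟩ := edge_pt ((1 : ℝ) • p + t • q) (t • p + (1 : ℝ) • q)
    (((1 + t) / 2) • p + ((1 + t) / 2) • q) (by intro i; simp; ring) c d hv2 hv3 hm2
  have hv4 : |‖(-1 : ℝ) • p + (1 : ℝ) • q‖ - c| ≤ d := by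
    have : (-1 : ℝ) • p + (1 : ℝ) • q = -((1 : ℝ) • p + (-1 : ℝ) • q) := by
      module
    rw [this, norm_neg]; exact hv1
  obtain ⟨i3, e3, he3, c1, c2, c3, c4⟩ := edge_pt (t • p + (1 : ℝ) • q) ((-1 : ℝ) • p + (1 : ℝ) • q)
    (((t - 1) / 2) • p + (1 : ℝ) • q) (by intro i; simp; ring) c d hv3 hv4 hm3
  simp only [Submodule.coe_add, Submodule.coe_smul, Pi.add_apply, Pi.smul_apply, smul_eq_mul] at a1 a2 a3 a4 b1 b2 b3 b4 c1 c2 c3 c4
  simp only [one_mul, neg_mul, ← sub_eq_add_neg] at a1 a2 a3 a4 b1 b2 b3 b4 c1 c2 c3 c4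
  obtain ⟨f1, f2⟩ := fact1 c d t _ _ e1 he1 ht0 hd0 a1 a2 a3 a4
  obtain ⟨f3, f4⟩ := fact1 c d t (q.1 i3) (p.1 i3) e3 he3 ht0 hd0 (by rw [show q.1 i3 - p.1 i3 = -p.1 i3 + q.1 i3 by ring]; exact c3)
    (by rw [show q.1 i3 - p.1 i3 = -p.1 i3 + q.1 i3 by ring]; exact c4) (by rw [add_comm]; exact c1) (by rw [add_comm]; exact c2)
  obtain ⟨f5, f6⟩ := fact2 s c d t _ _ e2 he2 ht0 ht1 hsp hs1 hst hd0 b1 b2 b3 b4
  have hsc : 2 / 3 * c ≤ s * c := mul_le_mul_of_nonneg_right hs0 hc.le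
  have hsc1 : s * c ≤ c := by nlinarith
  have hrc : 2 / 3 * c ≤ r * c := mul_le_mul_of_nonneg_right hr0 hc.le
  -- injectivity
  have n12 : i1 ≠ i2 := by
    intro h
    rw [← h] at f6
    rw [abs_le] at f1 f6
    rcases he2 with h | h <;> rw [h] at f6 <;> linarith [f1.1, f1.2, f6.1, f6.2]
  have n23 : i2 ≠ i3 := by
    intro h
    rw [← h] at f3
    rw [abs_le] at f3 f5
    rcases he2 with h | h <;> rw [h] at f5 <;> linarith [f3.1, f3.2, f5.1, f5.2]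
  have n13 : i1 ≠ i3 := by
    intro h
    rw [← h] at f4
    rw [abs_le] at f1 f4
    rcases he3 with h | h <;> rw [h] at f4 <;> linarith [f1.1, f1.2, f4.1, f4.2]
  have hp2 := Bk_two p
  have hq2 := Bk_two q
  rw [← hr] at hp2 hq2
  have hcs : 18 * d < (1 - s) * c := by linarith
  have s13 : |p.1 i1 + p.1 i3 - e1 * c| ≤ 11 * d := by
    rw [abs_le] at f2 f3 ⊢
    constructor <;> linarith [f2.1, f2.2, f3.1, f3.2]
  have s13' : |q.1 i1 + q.1 i3 - e3 * c| ≤ 11 * d := by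
    rw [abs_le] at f4 f1 ⊢
    constructor <;> linarith [f4.1, f4.2, f1.1, f1.2]
  -- the index of edge 2 must be 2
  have key : i2 = 2 := by
    by_contra hne
    rcases fin3_two i1 i2 i3 n12 n23 n13 hne with h | h
    · -- i1 = 2
      rw [h, hp2, fin3_sum p.1 i2 i3 n23 hne (by rw [← h]; exact n13.symm)] at f2
      have g : |p.1 i2 + p.1 i3 - e2 * (s * c)| ≤ 11 * d := by
        rw [abs_le] at f5 f3 ⊢
        constructor <;> linarith [f5.1, f5.2, f3.1, f3.2]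
      exact fact3 r s c d _ e1 e2 he1 he2 (by linarith) hr1.le hsp hs1 hc hd0 hcs f2 g
    · rw [h, hq2, fin3_sum q.1 i2 i1 n12.symm hne (by rw [← h]; exact n13)] at f4
      have g : |q.1 i2 + q.1 i1 - e2 * (s * c)| ≤ 11 * d := by
        rw [abs_le] at f6 f1 ⊢
        constructor <;> linarith [f6.1, f6.2, f1.1, f1.2]
      exact fact3 r s c d _ e3 e2 he3 he2 (by linarith) hr1.le hsp hs1 hc hd0 hcs f4 g
  rw [key] at n12 n23
  rw [key, hp2, fin3_sum p.1 i1 i3 n13 n12 n23.symm] at f5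
  rw [key, hq2, fin3_sum q.1 i1 i3 n13 n12 n23.symm] at f6
  obtain ⟨h12, hfin⟩ := fact4 r s c d _ e1 e2 he1 he2 hr0 hr1.le hs0 hc hd0 hdc f5 s13
  obtain ⟨h32, _⟩ := fact4 r s c d _ e3 e2 he3 he2 hr0 hr1.le hs0 hc hd0 hdc f6 s13'
  refine ⟨hfin, e2, he2, ?_⟩
  · rw [h12] at f2
    rw [h32] at f4
    rw [abs_le] at f1 f2 f3 f4
    have hcase := fin3_01 i1 i3 n13 n12 n23.symm
    rcases hcase with ⟨h1, h3⟩ | ⟨h1, h3⟩
    · left
      rw [h1] at f1 f2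
      rw [h3] at f3 f4
      refine ⟨abs_le.mpr f2, abs_le.mpr ⟨by linarith [f3.1], by linarith [f3.2]⟩, abs_le.mpr ⟨by linarith [f1.1], by linarith [f1.2]⟩,
        abs_le.mpr f4⟩
    · right
      rw [h1] at f1 f2
      rw [h3] at f3 f4
      refine ⟨abs_le.mpr ⟨by linarith [f3.1], by linarith [f3.2]⟩, abs_le.mpr f2, abs_le.mpr f4,
        abs_le.mpr ⟨by linarith [f1.1], by linarith [f1.2]⟩⟩

end Pool.Agent.R928.GF
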