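import Pool.Agent.R928.GF.Guard

/-! `X` is not omega-categorical; separability; infinite dimension. -/

set_option autoImplicit false
set_option linter.all false

open scoped ENNReal Topology
open Filter

namespace Pool.Agent.R928.GF

/-- the unit vector in the block `k` -/
noncomputable def zk (k : ℕ) : XX := sg k (bv k 1 0)

theorem zk_norm (k : ℕ) : ‖zk k‖ = 1 := by
  unfold zk
  rw [sg_norm]
  have h0 := sp_ge k
  have h1 := sp_lt k
  refine bv_norm k 1 0 (by norm_num) (by norm_num) ?_ (Or.inl abs_one)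
  rw [add_zero, mul_one, abs_of_pos (by linarith)]
  exact h1.le

/-- isometries map the block vectors into the same block -/
theorem iso_zk (g : XX ≃ₗᵢ[ℝ] XX) (k : ℕ) : ∃ v : Bk k, ‖v‖ = 1 ∧ g (zk k) = sg k v := by
  obtain ⟨K, δ1, hK, hδ1, H⟩ := copy k
  obtain ⟨x1, x2, x3, x4, x5, x6⟩ := hex k
  have hdev : ∀ a b : ℝ, ‖bv k a b‖ = 1 → |‖a • g (sg k (bv k 1 0)) + b • g (sg k (bv k 0 1))‖ ^ 2 - 1| ≤ 0 := by
    intro a b hab
    rw [← map_smul, ← map_smul, ← map_add, LinearIsometryEquiv.norm_map, ← sg_smul, ← sg_smul, ← sg_add, ← bv_lin, sg_norm, hab]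
    norm_num
  obtain ⟨u, hu, _⟩ := H 0 le_rfl hδ1.le _ _ (hdev _ _ x1) (hdev _ _ x2) (hdev _ _ x3) (hdev _ _ x4) (hdev _ _ x5) (hdev _ _ x6)
  rw [mul_zero] at hu
  have h1 : ‖g (sg k (bv k 1 0)) - sg k (sym k u (bv k 1 0))‖ = 0 := by
    have := le_antisymm hu (sq_nonneg _)
    exact pow_eq_zero_iff (two_ne_zero) |>.mp this
  refine ⟨sym k u (bv k 1 0), ?_, sub_eq_zero.mp (norm_eq_zero.mp h1)⟩
  rw [LinearIsometryEquiv.norm_map, ← sg_norm]
  exact zk_norm k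

theorem far_blocks (k l : ℕ) (hkl : k ≠ l) (v : Bk k) (w : Bk l) (hv : ‖v‖ = 1) : 1 ≤ ‖sg k v - sg l w‖ := by
  have h := coord_norm_le (sg k v - sg l w) k
  rw [XX_sub, sg_self, sg_ne l k w hkl, sub_zero, hv] at h
  exact h

theorem far (k l : ℕ) (hkl : k ≠ l) (g h : XX ≃ₗᵢ[ℝ] XX) : 1 ≤ ‖g (zk k) - h (zk l)‖ := by
  obtain ⟨v, hv, hv'⟩ := iso_zk g k
  obtain ⟨w, hw, hw'⟩ := iso_zk h l
  rw [hv', hw']
  exact far_blocks k l hkl v w hv

theorem rho_lt {n : ℕ} {A B : Set (Fin n → XX)} {c : ℝ} (hA : A.Nonempty) (hB : B.Nonempty) (h : rho XX n A B < c) :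
    ∃ z ∈ A, ∃ z' ∈ B, dist z z' < c := by
  unfold rho at h
  have hne : {d | ∃ z ∈ A, ∃ z' ∈ B, d = dist z z'}.Nonempty := by
    obtain ⟨a, ha⟩ := hA
    obtain ⟨b, hb⟩ := hB
    exact ⟨_, a, ha, b, hb, rfl⟩
  obtain ⟨d, ⟨z, hz, z', hz', hd⟩, hdc⟩ := exists_lt_of_csInf_lt hne h
  exact ⟨z, hz, z', hz', by rw [← hd]; exact hdc⟩

theorem orbit_nonempty (n : ℕ) (z : Fin n → XX) : (OrbitClosure XX n z).Nonempty :=
  ⟨_, subset_closure ⟨LinearIsometryEquiv.refl ℝ XX, rfl⟩⟩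

theorem orbit_near {n : ℕ} {z w : Fin n → XX} (hw : w ∈ OrbitClosure XX n z) {c : ℝ} (hc : 0 < c) :
    ∃ g : XX ≃ₗᵢ[ℝ] XX, dist w (fun i => g (z i)) < c := by
  obtain ⟨b, ⟨g, hg⟩, hb⟩ := Metric.mem_closure_iff.mp hw c hc
  exact ⟨g, by rw [← hg]; exact hb⟩

/-- from the metric to an isometry -/
theorem rho_iso {n : ℕ} {z w : Fin n → XX} {c : ℝ} (h : rho XX n (OrbitClosure XX n z) (OrbitClosure XX n w) < c) :
    ∃ g h : XX ≃ₗᵢ[ℝ] XX, dist (fun i => g (z i)) (fun i => h (w i)) < c := by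
  obtain ⟨a, ha, b, hb, hab⟩ := rho_lt (orbit_nonempty n z) (orbit_nonempty n w) h
  obtain ⟨g, hg⟩ := orbit_near ha (show 0 < (c - dist a b) / 2 by linarith)
  obtain ⟨k, hk⟩ := orbit_near hb (show 0 < (c - dist a b) / 2 by linarith)
  refine ⟨g, k, ?_⟩
  have h1 := dist_triangle (fun i => g (z i)) a (fun i => k (w i))
  have h2 := dist_triangle a b (fun i => k (w i))
  rw [dist_comm] at hg
  linarith

theorem not_cat : ¬ OmegaCategorical XX := by
  intro hcat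
  obtain ⟨L, ⟨z, hz, hL⟩, φ, hφ, hlim⟩ := hcat 1 (fun k => OrbitClosure XX 1 fun _ => zk k)
    (fun k => ⟨fun _ => zk k, fun _ => (zk_norm k).le, rfl⟩)
  rw [hL] at hlim
  have hev : ∀ᶠ i in atTop, rho XX 1 (OrbitClosure XX 1 fun _ => zk (φ i)) (OrbitClosure XX 1 z) < 1 / 2 :=
    hlim.eventually (gt_mem_nhds (by norm_num))
  obtain ⟨N, hN⟩ := eventually_atTop.mp hev
  obtain ⟨g1, k1, d1⟩ := rho_iso (hN N le_rfl)
  obtain ⟨g2, k2, d2⟩ := rho_iso (hN (N + 1) (Nat.le_succ N))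
  have e1 : ‖g1 (zk (φ N)) - k1 (z 0)‖ < 1 / 2 := by
    rw [← dist_eq_norm]
    exact (dist_le_pi_dist _ _ (0 : Fin 1)).trans_lt d1
  have e2 : ‖g2 (zk (φ (N + 1))) - k2 (z 0)‖ < 1 / 2 := by
    rw [← dist_eq_norm]
    exact (dist_le_pi_dist _ _ (0 : Fin 1)).trans_lt d2
  have hne : φ N ≠ φ (N + 1) := (hφ (Nat.lt_succ_self N)).ne
  have f1 : ‖k1.symm (g1 (zk (φ N))) - z 0‖ < 1 / 2 := by
    have : k1.symm (g1 (zk (φ N))) - z 0 = k1.symm (g1 (zk (φ N)) - k1 (z 0)) := by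
      rw [map_sub, LinearIsometryEquiv.symm_apply_apply]
    rw [this, LinearIsometryEquiv.norm_map]
    exact e1
  have f2 : ‖k2.symm (g2 (zk (φ (N + 1)))) - z 0‖ < 1 / 2 := by
    have : k2.symm (g2 (zk (φ (N + 1)))) - z 0 = k2.symm (g2 (zk (φ (N + 1))) - k2 (z 0)) := by
      rw [map_sub, LinearIsometryEquiv.symm_apply_apply]
    rw [this, LinearIsometryEquiv.norm_map]
    exact e2
  have h1 := far (φ N) (φ (N + 1)) hne (g1.trans k1.symm) (g2.trans k2.symm)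
  rw [LinearIsometryEquiv.trans_apply, LinearIsometryEquiv.trans_apply] at h1
  have h2 : k1.symm (g1 (zk (φ N))) - k2.symm (g2 (zk (φ (N + 1)))) =
      (k1.symm (g1 (zk (φ N))) - z 0) - (k2.symm (g2 (zk (φ (N + 1)))) - z 0) := by abel
  rw [h2] at h1
  have h3 := norm_sub_le (k1.symm (g1 (zk (φ N))) - z 0) (k2.symm (g2 (zk (φ (N + 1)))) - z 0)
  linarith

theorem infinite_dim : ¬ FiniteDimensional ℝ XX := by
  intro hfin
  have hcomp : IsCompact (Metric.closedBall (0 : XX) 1) := by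
    have := FiniteDimensional.proper ℝ XX
    exact isCompact_closedBall _ _
  obtain ⟨a, _, φ, hφ, hlim⟩ := hcomp.tendsto_subseq (x := zk) (fun k => by
    rw [mem_closedBall_zero_iff]
    exact (zk_norm k).le)
  have hc := hlim.cauchySeq
  obtain ⟨N, hN⟩ := Metric.cauchySeq_iff.mp hc 1 one_pos
  have h1 := hN N le_rfl (N + 1) (Nat.le_succ N)
  have hne : φ N ≠ φ (N + 1) := (hφ (Nat.lt_succ_self N)).ne
  have h2 := far (φ N) (φ (N + 1)) hne (LinearIsometryEquiv.refl ℝ XX) (LinearIsometryEquiv.refl ℝ XX)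
  rw [dist_eq_norm] at h1
  exact absurd h1 (not_lt.mpr h2)

theorem separable : TopologicalSpace.SeparableSpace XX := by
  rw [← TopologicalSpace.isSeparable_univ_iff]
  have hcount : (Set.range (fun k => sg k (bv k 1 0)) ∪ Set.range (fun k => sg k (bv k 0 1))).Countable :=
    (Set.countable_range _).union (Set.countable_range _)
  have hsep := (hcount.isSeparable.span (R := ℝ)).closure
  refine hsep.mono fun x _ => ?_
  refine mem_closure_of_tendsto (PP_tendsto x) (Eventually.of_forall fun n => ?_)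
  rw [PP_apply]
  refine Submodule.sum_mem _ fun k _ => ?_
  rw [sg_bv]
  exact Submodule.add_mem _ (Submodule.smul_mem _ _ (Submodule.subset_span (Or.inl ⟨k, rfl⟩)))
    (Submodule.smul_mem _ _ (Submodule.subset_span (Or.inr ⟨k, rfl⟩)))

end Pool.Agent.R928.GF
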