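import Pool.Agent.R928.GF.Space

/-! Almost isometric copies of a block in `X`. -/

set_option autoImplicit false
set_option linter.all false

namespace Pool.Agent.R928.GF

theorem near {k : ℕ} (w v : Bk k) (b : ℝ) (h0 : |w.1 0 - v.1 0| ≤ b) (h1 : |w.1 1 - v.1 1| ≤ b) : ‖w - v‖ ≤ 2 * b := by
  have hb : 0 ≤ b := (abs_nonneg _).trans h0
  have hs0 := sp_ge k
  have hs1 := sp_lt k
  refine norm_le_of _ _ ?_ ?_ ?_
  · change |w.1 0 - v.1 0| ≤ 2 * b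
    linarith
  · change |w.1 1 - v.1 1| ≤ 2 * b
    linarith
  · rw [Bk_two]
    change |sp k * ((w.1 0 - v.1 0) + (w.1 1 - v.1 1))| ≤ 2 * b
    rw [abs_mul, abs_of_pos (by linarith)]
    have := abs_add_le (w.1 0 - v.1 0) (w.1 1 - v.1 1)
    nlinarith [abs_nonneg ((w.1 0 - v.1 0) + (w.1 1 - v.1 1))]

theorem sym_ff (k : ℕ) (v : Bk k) : sym k (false, false) v = v := rfl
theorem sym_tf (k : ℕ) (v : Bk k) : sym k (true, false) v = -v := rfl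
theorem sym_ft (k : ℕ) (v : Bk k) : sym k (false, true) v = bv k (v.1 1) (v.1 0) := rfl
theorem sym_tt (k : ℕ) (v : Bk k) : sym k (true, true) v = -bv k (v.1 1) (v.1 0) := rfl

theorem sqrt_ge (a D : ℝ) (h : a ^ 2 ≤ D) : |a| ≤ Real.sqrt D := Real.abs_le_sqrt h

/-- norms of the coordinates of `a x + b y` -/
noncomputable def VV (a b : ℝ) (x y : XX) (k : ℕ) : ℝ := ‖a • x k + b • y k‖

theorem VV_nonneg (a b : ℝ) (x y : XX) (k : ℕ) : 0 ≤ VV a b x y k := norm_nonneg _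

theorem VV_eq (a b : ℝ) (x y : XX) (k : ℕ) : ‖(a • x + b • y) k‖ = VV a b x y k := rfl

theorem VV_summ (a b : ℝ) (x y : XX) : Summable fun k => VV a b x y k ^ 2 := by
  have h := summ (a • x + b • y)
  simpa only [VV_eq] using h

theorem VV_tsum (a b : ℝ) (x y : XX) : ∑' k, VV a b x y k ^ 2 = ‖a • x + b • y‖ ^ 2 := by
  have h := nsq (a • x + b • y)
  simp only [VV_eq] at h
  exact h.symm

theorem VV_mid (a b a' b' a'' b'' : ℝ) (ha : 2 * a = a' + a'') (hb : 2 * b = b' + b'') (x y : XX) (k : ℕ) :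
    2 * VV a b x y k ≤ VV a' b' x y k + VV a'' b'' x y k := by
  unfold VV
  have h1 : ‖(2 : ℝ) • (a • x k + b • y k)‖ = 2 * ‖a • x k + b • y k‖ := by rw [norm_smul]; norm_num
  have h2 : (2 : ℝ) • (a • x k + b • y k) = (a' • x k + b' • y k) + (a'' • x k + b'' • y k) := by
    rw [smul_add, smul_smul, smul_smul, ha, hb]
    module
  rw [← h1, h2]
  exact norm_add_le _ _

theorem VV_neg (a b : ℝ) (x y : XX) (k : ℕ) : VV (-a) (-b) x y k = VV a b x y k := by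
  unfold VV
  have : (-a) • x k + (-b) • y k = -(a • x k + b • y k) := by module
  rw [this, norm_neg]

theorem devs (t δ : ℝ) (x y : XX)
    (w1 : |‖(1 : ℝ) • x + (-1 : ℝ) • y‖ ^ 2 - 1| ≤ δ)
    (w2 : |‖(1 : ℝ) • x + t • y‖ ^ 2 - 1| ≤ δ)
    (w3 : |‖t • x + (1 : ℝ) • y‖ ^ 2 - 1| ≤ δ)
    (w4 : |‖(1 : ℝ) • x + ((t - 1) / 2) • y‖ ^ 2 - 1| ≤ δ)
    (w5 : |‖((1 + t) / 2) • x + ((1 + t) / 2) • y‖ ^ 2 - 1| ≤ δ)
    (w6 : |‖((t - 1) / 2) • x + (1 : ℝ) • y‖ ^ 2 - 1| ≤ δ) :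
    ∃ D : ℕ → ℝ, Summable D ∧ ∑' k, D k ≤ 48 * δ ∧ (∀ k, 0 ≤ D k) ∧
      ∀ k, (VV 1 (-1) x y k - VV 1 t x y k) ^ 2 ≤ D k ∧ (VV t 1 x y k - VV 1 t x y k) ^ 2 ≤ D k ∧
        (VV 1 ((t - 1) / 2) x y k - VV 1 t x y k) ^ 2 ≤ D k ∧
        (VV ((1 + t) / 2) ((1 + t) / 2) x y k - VV 1 t x y k) ^ 2 ≤ D k ∧
        (VV ((t - 1) / 2) 1 x y k - VV 1 t x y k) ^ 2 ≤ D k := by
  rw [← VV_tsum, abs_le] at w1 w2 w3 w4 w5 w6
  obtain ⟨A1, A2, A3, A4⟩ := edge_l2 (VV 1 t x y) (VV 1 (-1) x y) (VV 1 ((t - 1) / 2) x y) δ (VV_summ _ _ _ _) (VV_summ _ _ _ _)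
    (VV_summ _ _ _ _) (fun k => norm_nonneg _) (fun k => VV_mid _ _ _ _ _ _ (by ring) (by ring) x y k)
    (by linarith [w2.2]) (by linarith [w1.2]) (by linarith [w4.1])
  obtain ⟨B1, B2, B3, B4⟩ := edge_l2 (VV 1 t x y) (VV t 1 x y) (VV ((1 + t) / 2) ((1 + t) / 2) x y) δ (VV_summ _ _ _ _) (VV_summ _ _ _ _)
    (VV_summ _ _ _ _) (fun k => norm_nonneg _) (fun k => VV_mid _ _ _ _ _ _ (by ring) (by ring) x y k)
    (by linarith [w2.2]) (by linarith [w3.2]) (by linarith [w5.1])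
  obtain ⟨C1, C2, C3, C4⟩ := edge_l2 (VV t 1 x y) (VV 1 (-1) x y) (VV ((t - 1) / 2) 1 x y) δ (VV_summ _ _ _ _) (VV_summ _ _ _ _)
    (VV_summ _ _ _ _) (fun k => norm_nonneg _) (fun k => by
      have h := VV_mid ((t - 1) / 2) 1 t 1 (-1) (-(-1)) (by ring) (by ring) x y k
      rwa [VV_neg 1 (-1)] at h)
    (by linarith [w3.2]) (by linarith [w1.2]) (by linarith [w6.1])
  refine ⟨fun k => ((VV 1 t x y k - VV 1 (-1) x y k) ^ 2 + (VV 1 ((t - 1) / 2) x y k - VV 1 t x y k) ^ 2 +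
    (VV 1 t x y k - VV t 1 x y k) ^ 2 + (VV ((1 + t) / 2) ((1 + t) / 2) x y k - VV 1 t x y k) ^ 2) +
    (2 * (VV ((t - 1) / 2) 1 x y k - VV t 1 x y k) ^ 2 + 2 * (VV 1 t x y k - VV t 1 x y k) ^ 2),
    (((A1.add A3).add B1).add B3).add ((C3.mul_left 2).add (B1.mul_left 2)), ?_, fun k => by positivity, ?_⟩
  · rw [(((A1.add A3).add B1).add B3).tsum_add ((C3.mul_left 2).add (B1.mul_left 2)), ((A1.add A3).add B1).tsum_add B3,
      (A1.add A3).tsum_add B1, A1.tsum_add A3, (C3.mul_left 2).tsum_add (B1.mul_left 2), tsum_mul_left, tsum_mul_left]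
    linarith
  · intro k
    beta_reduce
    generalize VV 1 t x y k = v2
    generalize VV 1 (-1) x y k = v1
    generalize VV t 1 x y k = v3
    generalize VV 1 ((t - 1) / 2) x y k = m1
    generalize VV ((1 + t) / 2) ((1 + t) / 2) x y k = m2
    generalize VV ((t - 1) / 2) 1 x y k = m3
    have q1 := sq_nonneg (v2 - v1)
    have q2 := sq_nonneg (m1 - v2)
    have q3 := sq_nonneg (v2 - v3)
    have q4 := sq_nonneg (m2 - v2)
    have q5 := sq_nonneg (m3 - v3)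
    have r1 : (v1 - v2) ^ 2 = (v2 - v1) ^ 2 := by ring
    have r3 : (v3 - v2) ^ 2 = (v2 - v3) ^ 2 := by ring
    have r5 : (m3 - v2) ^ 2 ≤ 2 * (m3 - v3) ^ 2 + 2 * (v2 - v3) ^ 2 := by nlinarith [sq_nonneg ((m3 - v3) + (v2 - v3))]
    refine ⟨?_, ?_, ?_, ?_, ?_⟩
    · rw [r1]; linarith
    · rw [r3]; linarith
    · linarith
    · linarith
    · linarith

theorem abs_le_sqrt' (a D : ℝ) (h : a ^ 2 ≤ D) : |a| ≤ Real.sqrt D := Real.abs_le_sqrt h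

theorem coords_le (t : ℝ) (ht0 : 0 < t) (x y : XX) (k : ℕ) :
    ‖x k‖ ≤ VV 1 t x y k + VV 1 (-1) x y k * (1 + t) ∧ ‖y k‖ ≤ VV 1 t x y k + VV 1 (-1) x y k * (1 + t) := by
  have n1 := VV_nonneg 1 t x y k
  have n2 := VV_nonneg 1 (-1) x y k
  constructor
  · have h1 : (1 + t) • x k = ((1 : ℝ) • x k + t • y k) + t • ((1 : ℝ) • x k + (-1 : ℝ) • y k) := by module
    have h2 : ‖(1 + t) • x k‖ ≤ VV 1 t x y k + t * VV 1 (-1) x y k := by
      rw [h1]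
      refine (norm_add_le _ _).trans ?_
      rw [norm_smul t, Real.norm_eq_abs, abs_of_pos ht0]
      exact le_rfl
    rw [norm_smul, Real.norm_eq_abs, abs_of_pos (by linarith)] at h2
    nlinarith [norm_nonneg (x k), mul_nonneg ht0.le (norm_nonneg (x k))]
  · have h1 : (1 + t) • y k = ((1 : ℝ) • x k + t • y k) - ((1 : ℝ) • x k + (-1 : ℝ) • y k) := by module
    have h2 : ‖(1 + t) • y k‖ ≤ VV 1 t x y k + VV 1 (-1) x y k := by
      rw [h1]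
      exact norm_sub_le _ _
    rw [norm_smul, Real.norm_eq_abs, abs_of_pos (by linarith)] at h2
    nlinarith [norm_nonneg (y k), mul_nonneg ht0.le (norm_nonneg (y k)), mul_nonneg ht0.le n2]

/-- off the block `j` everything is controlled by the deviation -/
theorem offblock (j k : ℕ) (hk : k ≠ j) (c d : ℝ) (hc : 0 ≤ c) (hd : 0 ≤ d)
    (h : d < (1 - sp j) / 30 * c → |sp k - sp j| * c ≤ 18 * d) :
    c ≤ (18 / (1 / (((j : ℝ) + 3) * (j + 4))) + 1 / ((1 - sp j) / 30)) * d := by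
  have hs1 := sp_lt j
  have hη0 : 0 < (1 - sp j) / 30 := by linarith
  have hρ0 : 0 < 1 / (((j : ℝ) + 3) * (j + 4)) := by positivity
  by_cases hlt : d < (1 - sp j) / 30 * c
  · have h1 := h hlt
    have h2 := sp_sep j k hk
    have h3 : 1 / (((j : ℝ) + 3) * (j + 4)) * c ≤ 18 * d := (mul_le_mul_of_nonneg_right h2 hc).trans h1
    have h4 : c ≤ 18 / (1 / (((j : ℝ) + 3) * (j + 4))) * d := by
      rw [div_mul_eq_mul_div, le_div_iff₀ hρ0]; linarith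
    have h5 : 0 ≤ 1 / ((1 - sp j) / 30) * d := mul_nonneg (by positivity) hd
    rw [add_mul]
    linarith
  · push Not at hlt
    have h4 : c ≤ 1 / ((1 - sp j) / 30) * d := by
      rw [div_mul_eq_mul_div, one_mul, le_div_iff₀ hη0]; linarith
    have h5 : 0 ≤ 18 / (1 / (((j : ℝ) + 3) * (j + 4))) * d := mul_nonneg (by positivity) hd
    rw [add_mul]
    linarith

/-- from the block estimate to the symmetry -/
theorem pick (j : ℕ) (p q : Bk j) (c b : ℝ) (e : ℝ) (he : e = 1 ∨ e = -1)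
    (hcase : (|p.1 0 - e * c| ≤ b ∧ |p.1 1| ≤ b ∧ |q.1 0| ≤ b ∧ |q.1 1 - e * c| ≤ b) ∨
       (|p.1 0| ≤ b ∧ |p.1 1 - e * c| ≤ b ∧ |q.1 0 - e * c| ≤ b ∧ |q.1 1| ≤ b)) :
    ∃ u : Bool × Bool, ‖p - sym j u (bv j 1 0)‖ ≤ 2 * (b + |c - 1|) ∧ ‖q - sym j u (bv j 0 1)‖ ≤ 2 * (b + |c - 1|) := by
  have habs : 0 ≤ |c - 1| := abs_nonneg _
  have hcb := abs_le.mp (le_refl |c - 1|)
  rcases hcase with ⟨g1, g2, g3, g4⟩ | ⟨g1, g2, g3, g4⟩
  · rw [abs_le] at g1 g2 g3 g4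
    rcases he with he | he
    · rw [he] at g1 g4
      refine ⟨(false, false), near _ _ _ ?_ ?_, near _ _ _ ?_ ?_⟩
      · change |p.1 0 - 1| ≤ _; rw [abs_le]; constructor <;> linarith [g1.1, g1.2, hcb.1, hcb.2]
      · change |p.1 1 - 0| ≤ _; rw [abs_le]; constructor <;> linarith [g2.1, g2.2]
      · change |q.1 0 - 0| ≤ _; rw [abs_le]; constructor <;> linarith [g3.1, g3.2]
      · change |q.1 1 - 1| ≤ _; rw [abs_le]; constructor <;> linarith [g4.1, g4.2, hcb.1, hcb.2]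
    · rw [he] at g1 g4
      refine ⟨(true, false), near _ _ _ ?_ ?_, near _ _ _ ?_ ?_⟩
      · change |p.1 0 - -1| ≤ _; rw [abs_le]; constructor <;> linarith [g1.1, g1.2, hcb.1, hcb.2]
      · change |p.1 1 - -0| ≤ _; rw [abs_le]; constructor <;> linarith [g2.1, g2.2]
      · change |q.1 0 - -0| ≤ _; rw [abs_le]; constructor <;> linarith [g3.1, g3.2]
      · change |q.1 1 - -1| ≤ _; rw [abs_le]; constructor <;> linarith [g4.1, g4.2, hcb.1, hcb.2]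
  · rw [abs_le] at g1 g2 g3 g4
    rcases he with he | he
    · rw [he] at g2 g3
      refine ⟨(false, true), near _ _ _ ?_ ?_, near _ _ _ ?_ ?_⟩
      · change |p.1 0 - 0| ≤ _; rw [abs_le]; constructor <;> linarith [g1.1, g1.2]
      · change |p.1 1 - 1| ≤ _; rw [abs_le]; constructor <;> linarith [g2.1, g2.2, hcb.1, hcb.2]
      · change |q.1 0 - 1| ≤ _; rw [abs_le]; constructor <;> linarith [g3.1, g3.2, hcb.1, hcb.2]
      · change |q.1 1 - 0| ≤ _; rw [abs_le]; constructor <;> linarith [g4.1, g4.2]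
    · rw [he] at g2 g3
      refine ⟨(true, true), near _ _ _ ?_ ?_, near _ _ _ ?_ ?_⟩
      · change |p.1 0 - -0| ≤ _; rw [abs_le]; constructor <;> linarith [g1.1, g1.2]
      · change |p.1 1 - -1| ≤ _; rw [abs_le]; constructor <;> linarith [g2.1, g2.2, hcb.1, hcb.2]
      · change |q.1 0 - -1| ≤ _; rw [abs_le]; constructor <;> linarith [g3.1, g3.2, hcb.1, hcb.2]
      · change |q.1 1 - -0| ≤ _; rw [abs_le]; constructor <;> linarith [g4.1, g4.2]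

theorem nsq_split (j : ℕ) (z : XX) (w : Bk j) (D : ℕ → ℝ) (A : ℝ) (hDs : Summable D) (hD0 : ∀ k, 0 ≤ D k) (hA : 0 ≤ A)
    (hz : ∀ k, k ≠ j → ‖z k‖ ^ 2 ≤ A * D k) : ‖z - sg j w‖ ^ 2 ≤ A * ∑' k, D k + ‖z j - w‖ ^ 2 := by
  rw [nsq]
  have h1 : ∀ k, ‖(z - sg j w) k‖ ^ 2 ≤ A * D k + (if k = j then ‖z j - w‖ ^ 2 else 0) := by
    intro k
    by_cases hk : k = j
    · subst hk
      rw [if_pos rfl, XX_sub, sg_self]
      have : 0 ≤ A * D k := mul_nonneg hA (hD0 k)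
      linarith
    · rw [if_neg hk, add_zero, XX_sub, sg_ne _ _ _ hk, sub_zero]
      exact hz k hk
  have h2 : Summable fun k : ℕ => (if k = j then ‖z j - w‖ ^ 2 else 0) := (hasSum_ite_eq j (‖z j - w‖ ^ 2)).summable
  have h3 := (summ (z - sg j w)).tsum_le_tsum h1 ((hDs.mul_left A).add h2)
  rwa [(hDs.mul_left A).tsum_add h2, tsum_mul_left, tsum_ite_eq] at h3

theorem sq_low (j : ℕ) (V D : ℕ → ℝ) (A : ℝ) (hV : Summable fun k => V k ^ 2) (hDs : Summable D) (hD0 : ∀ k, 0 ≤ D k) (hA : 0 ≤ A)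
    (hz : ∀ k, k ≠ j → V k ^ 2 ≤ A * D k) : ∑' k, V k ^ 2 ≤ A * ∑' k, D k + V j ^ 2 := by
  have h1 : ∀ k, V k ^ 2 ≤ A * D k + (if k = j then V j ^ 2 else 0) := by
    intro k
    by_cases hk : k = j
    · subst hk
      rw [if_pos rfl]
      have : 0 ≤ A * D k := mul_nonneg hA (hD0 k)
      linarith
    · rw [if_neg hk, add_zero]
      exact hz k hk
  have h2 : Summable fun k : ℕ => (if k = j then V j ^ 2 else 0) := (hasSum_ite_eq j (V j ^ 2)).summable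
  have h3 := hV.tsum_le_tsum h1 ((hDs.mul_left A).add h2)
  rwa [(hDs.mul_left A).tsum_add h2, tsum_mul_left, tsum_ite_eq] at h3

/-- Lemma 1: almost isometric copies of `E_j` in `X` are close to the `j`-th block. -/
theorem copy (j : ℕ) : ∃ K δ1 : ℝ, 0 < K ∧ 0 < δ1 ∧ ∀ δ : ℝ, 0 ≤ δ → δ ≤ δ1 → ∀ x y : XX,
    |‖(1 : ℝ) • x + (-1 : ℝ) • y‖ ^ 2 - 1| ≤ δ →
    |‖(1 : ℝ) • x + (1 / sp j - 1) • y‖ ^ 2 - 1| ≤ δ →
    |‖(1 / sp j - 1) • x + (1 : ℝ) • y‖ ^ 2 - 1| ≤ δ →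
    |‖(1 : ℝ) • x + ((1 / sp j - 1 - 1) / 2) • y‖ ^ 2 - 1| ≤ δ →
    |‖((1 + (1 / sp j - 1)) / 2) • x + ((1 + (1 / sp j - 1)) / 2) • y‖ ^ 2 - 1| ≤ δ →
    |‖((1 / sp j - 1 - 1) / 2) • x + (1 : ℝ) • y‖ ^ 2 - 1| ≤ δ →
    ∃ u : Bool × Bool, ‖x - sg j (sym j u (bv j 1 0))‖ ^ 2 ≤ K * δ ∧ ‖y - sg j (sym j u (bv j 0 1))‖ ^ 2 ≤ K * δ := by
  have hs0 := sp_ge j
  have hs1 := sp_lt j
  have hsp : 0 < sp j := by linarith
  have ht0 : 0 < 1 / sp j - 1 := by rw [sub_pos, lt_div_iff₀ hsp]; linarith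
  have ht1 : 1 / sp j - 1 ≤ 1 / 2 := by
    have : 1 / sp j ≤ 3 / 2 := by rw [div_le_iff₀ hsp]; linarith
    linarith
  have hη0 : 0 < (1 - sp j) / 30 := by linarith
  obtain ⟨η, hη⟩ : ∃ η, η = (1 - sp j) / 30 := ⟨_, rfl⟩
  rw [← hη] at hη0
  obtain ⟨C, hC⟩ : ∃ C, C = 18 / (1 / (((j : ℝ) + 3) * (j + 4))) + 1 / ((1 - sp j) / 30) := ⟨_, rfl⟩
  have hC0 : 0 < C := by rw [hC, ← hη]; positivity
  obtain ⟨L, hL⟩ : ∃ L, L = 1 + 48 * C ^ 2 := ⟨_, rfl⟩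
  have hL0 : 0 < L := by rw [hL]; positivity
  refine ⟨(3 * C + 2) ^ 2 * 48 + 392 * 48 + 8 * L ^ 2, min 1 (min (1 / (2 * L)) (η ^ 2 / 200)), by positivity, by positivity, ?_⟩
  intro δ hδ0 hδ x y w1 w2 w3 w4 w5 w6
  have hδ1 : δ ≤ 1 := hδ.trans (min_le_left _ _)
  have hδL : δ ≤ 1 / (2 * L) := hδ.trans ((min_le_right _ _).trans (min_le_left _ _))
  have hδη : δ ≤ η ^ 2 / 200 := hδ.trans ((min_le_right _ _).trans (min_le_right _ _))
  obtain ⟨D, hDs, hDt, hD0, hD⟩ := devs (1 / sp j - 1) δ x y w1 w2 w3 w4 w5 w6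
  rw [← VV_tsum, abs_le] at w2
  have htwo : ∀ k, Real.sqrt (D k) < (1 - sp j) / 30 * VV 1 (1 / sp j - 1) x y k → _ := fun k h =>
    two j k (x k) (y k) (VV 1 (1 / sp j - 1) x y k) (Real.sqrt (D k)) (Real.abs_le_sqrt (hD k).1)
      (by
        have : |VV 1 (1 / sp j - 1) x y k - VV 1 (1 / sp j - 1) x y k| ≤ Real.sqrt (D k) := by
          rw [sub_self, abs_zero]; exact Real.sqrt_nonneg _
        exact this)
      (Real.abs_le_sqrt (hD k).2.1) (Real.abs_le_sqrt (hD k).2.2.1)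
      (Real.abs_le_sqrt (hD k).2.2.2.1) (Real.abs_le_sqrt (hD k).2.2.2.2) h
  have hoff : ∀ k, k ≠ j → VV 1 (1 / sp j - 1) x y k ≤ C * Real.sqrt (D k) := by
    intro k hk
    rw [hC]
    exact offblock j k hk _ _ (VV_nonneg _ _ _ _ _) (Real.sqrt_nonneg _) fun h => (htwo k h).1
  have hoff2 : ∀ k, k ≠ j → VV 1 (1 / sp j - 1) x y k ^ 2 ≤ C ^ 2 * D k := by
    intro k hk
    have h1 := pow_le_pow_left₀ (VV_nonneg _ _ _ _ _) (hoff k hk) 2
    rwa [mul_pow, Real.sq_sqrt (hD0 k)] at h1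
  have hv1 : ∀ k, VV 1 (-1) x y k ≤ VV 1 (1 / sp j - 1) x y k + Real.sqrt (D k) := by
    intro k
    have := abs_le.mp (Real.abs_le_sqrt (hD k).1)
    linarith [this.2]
  have hxy : ∀ k, k ≠ j → VV 1 (1 / sp j - 1) x y k + VV 1 (-1) x y k * (1 + (1 / sp j - 1)) ≤ (3 * C + 2) * Real.sqrt (D k) := by
    intro k hk
    have h1 := hoff k hk
    have h2 := hv1 k
    have h3 := Real.sqrt_nonneg (D k)
    have h4 := VV_nonneg 1 (-1) x y k
    have h5 : VV 1 (-1) x y k * (1 + (1 / sp j - 1)) ≤ VV 1 (-1) x y k * (3 / 2) :=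
      mul_le_mul_of_nonneg_left (by linarith) h4
    have h6 : VV 1 (-1) x y k ≤ (C + 1) * Real.sqrt (D k) := by linarith
    have h7 : 0 ≤ C * Real.sqrt (D k) := mul_nonneg hC0.le h3
    linarith
  have hDj : D j ≤ 48 * δ := (hDs.le_tsum j fun i _ => hD0 i).trans hDt
  have hcup : VV 1 (1 / sp j - 1) x y j ^ 2 ≤ 1 + δ := by
    have := (VV_summ 1 (1 / sp j - 1) x y).le_tsum j fun i _ => sq_nonneg _
    linarith [w2.2]
  have hclow : 1 - δ ≤ 48 * C ^ 2 * δ + VV 1 (1 / sp j - 1) x y j ^ 2 := by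
    have h3 := sq_low j (VV 1 (1 / sp j - 1) x y) D (C ^ 2) (VV_summ _ _ _ _) hDs hD0 (sq_nonneg _) hoff2
    have h4 : C ^ 2 * ∑' k, D k ≤ C ^ 2 * (48 * δ) := mul_le_mul_of_nonneg_left hDt (sq_nonneg _)
    linarith [w2.1]
  have hjj := htwo j
  obtain ⟨c, hc⟩ : ∃ c, c = VV 1 (1 / sp j - 1) x y j := ⟨_, rfl⟩
  rw [← hc] at hcup hclow hjj
  have hc0 : 0 ≤ c := by rw [hc]; exact VV_nonneg _ _ _ _ _
  have hc1 : |c - 1| ≤ L * δ := by
    have h1 : |c ^ 2 - 1| ≤ L * δ := by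
      rw [abs_le, hL]
      have : 0 ≤ 48 * C ^ 2 * δ := by positivity
      constructor <;> linarith
    have h2 : c ^ 2 - 1 = (c - 1) * (c + 1) := by ring
    rw [h2, abs_mul, abs_of_nonneg (by linarith : 0 ≤ c + 1)] at h1
    nlinarith [abs_nonneg (c - 1), mul_nonneg hc0 (abs_nonneg (c - 1))]
  have hLδ : L * δ ≤ 1 / 2 := by
    calc L * δ ≤ L * (1 / (2 * L)) := mul_le_mul_of_nonneg_left hδL hL0.le
      _ = 1 / 2 := by field_simp
  have hchalf : 1 / 2 ≤ c := by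
    rw [abs_le] at hc1
    linarith [hc1.1]
  have hdj : Real.sqrt (D j) < (1 - sp j) / 30 * c := by
    rw [← hη]
    have h1 : Real.sqrt (D j) < η / 2 := by
      apply (Real.sqrt_lt' (by positivity)).mpr
      have : 0 < η ^ 2 := by positivity
      rw [div_pow]
      linarith
    have h2 : η * (1 / 2) ≤ η * c := mul_le_mul_of_nonneg_left hchalf hη0.le
    linarith
  obtain ⟨_, e, he, hcase⟩ := hjj hdj
  obtain ⟨u, hu1, hu2⟩ := pick j (x j) (y j) c (7 * Real.sqrt (D j)) e he hcase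
  have hfin : (2 * (7 * Real.sqrt (D j) + |c - 1|)) ^ 2 ≤ (392 * 48 + 8 * L ^ 2) * δ := by
    have h6 : (2 * (7 * Real.sqrt (D j) + |c - 1|)) ^ 2 ≤ 392 * Real.sqrt (D j) ^ 2 + 8 * |c - 1| ^ 2 := by
      nlinarith [sq_nonneg (7 * Real.sqrt (D j) - |c - 1|)]
    rw [Real.sq_sqrt (hD0 j)] at h6
    have h7 : |c - 1| ^ 2 ≤ L ^ 2 * δ := by
      have h8 : |c - 1| ^ 2 ≤ (L * δ) ^ 2 := pow_le_pow_left₀ (abs_nonneg _) hc1 2
      have h9 : (L * δ) ^ 2 ≤ L ^ 2 * δ := by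
        rw [mul_pow]
        apply mul_le_mul_of_nonneg_left _ (sq_nonneg _)
        nlinarith
      linarith
    linarith
  have hAD : (3 * C + 2) ^ 2 * ∑' k, D k ≤ (3 * C + 2) ^ 2 * (48 * δ) := mul_le_mul_of_nonneg_left hDt (sq_nonneg _)
  refine ⟨u, ?_, ?_⟩
  · have h1 := nsq_split j x (sym j u (bv j 1 0)) D ((3 * C + 2) ^ 2) hDs hD0 (sq_nonneg _) (fun k hk => by
      have h2 := pow_le_pow_left₀ (norm_nonneg _) (((coords_le _ ht0 x y k).1).trans (hxy k hk)) 2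
      rwa [mul_pow, Real.sq_sqrt (hD0 k)] at h2)
    have h3 := pow_le_pow_left₀ (norm_nonneg _) hu1 2
    linarith
  · have h1 := nsq_split j y (sym j u (bv j 0 1)) D ((3 * C + 2) ^ 2) hDs hD0 (sq_nonneg _) (fun k hk => by
      have h2 := pow_le_pow_left₀ (norm_nonneg _) (((coords_le _ ht0 x y k).2).trans (hxy k hk)) 2
      rwa [mul_pow, Real.sq_sqrt (hD0 k)] at h2)
    have h3 := pow_le_pow_left₀ (norm_nonneg _) hu2 2
    linarith

end Pool.Agent.R928.GF
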