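import Mathlib

/-! Guarded Fraisse Banach spaces and omega-categorical Banach spaces. -/

set_option autoImplicit false
set_option linter.all false

open scoped Topology
open Filter

namespace Pool.Agent.R928.GF

variable (X : Type) [NormedAddCommGroup X] [NormedSpace ℝ X]

/-- the `δ`-embeddings of the subspace `F` in `X` -/
def Emb (δ : ℝ) (F : Submodule ℝ X) : Set (F →ₗ[ℝ] X) :=
  {ι | ∀ x : F, (1 + δ)⁻¹ * ‖x‖ ≤ ‖ι x‖ ∧ ‖ι x‖ ≤ (1 + δ) * ‖x‖}

/-- guarded Fraisse: for all finite dimensional `E` and `ε > 0` there are `δ > 0` and a finite dimensional `F ⊇ E` such that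
the isometries of `X` act `ε`-transitively on the restrictions to `E` of the `δ`-embeddings of `F`
(`‖ι' - T ∘ ι‖ < ε` in operator norm on `E`) -/
def GuardedFraisse : Prop :=
  ∀ E : Submodule ℝ X, FiniteDimensional ℝ E → ∀ ε : ℝ, 0 < ε →
    ∃ δ : ℝ, 0 < δ ∧ ∃ F : Submodule ℝ X, FiniteDimensional ℝ F ∧ ∃ hEF : E ≤ F,
      ∀ ι ∈ Emb X δ F, ∀ ι' ∈ Emb X δ F, ∃ T : X ≃ₗᵢ[ℝ] X, ∃ c : ℝ, 0 ≤ c ∧ c < ε ∧
        ∀ x : E, ‖ι' (Submodule.inclusion hEF x) - T (ι (Submodule.inclusion hEF x))‖ ≤ c * ‖x‖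

/-- the closure of the orbit of the tuple `z` under the isometry group of `X` (max metric on tuples) -/
def OrbitClosure (n : ℕ) (z : Fin n → X) : Set (Fin n → X) :=
  closure {w | ∃ g : X ≃ₗᵢ[ℝ] X, w = fun i => g (z i)}

/-- the set of orbit closures of `n`-tuples in the closed unit ball -/
def Orbits (n : ℕ) : Set (Set (Fin n → X)) :=
  {A | ∃ z : Fin n → X, (∀ i, ‖z i‖ ≤ 1) ∧ A = OrbitClosure X n z}

/-- the distance `ρ(A, B) = inf {d(z, z') : z ∈ A, z' ∈ B}` of two sets of tuples -/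
noncomputable def rho (n : ℕ) (A B : Set (Fin n → X)) : ℝ :=
  sInf {d | ∃ z ∈ A, ∃ z' ∈ B, d = dist z z'}

/-- omega-categorical: for every `n` the metric space of orbit closures of `n`-tuples in the unit ball is compact,
that is, every sequence of orbit closures has a subsequence converging for `ρ` to an orbit closure -/
def OmegaCategorical : Prop :=
  ∀ n : ℕ, ∀ A : ℕ → Set (Fin n → X), (∀ i, A i ∈ Orbits X n) →
    ∃ L ∈ Orbits X n, ∃ φ : ℕ → ℕ, StrictMono φ ∧ Tendsto (fun i => rho X n (A (φ i)) L) atTop (𝓝 0)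

end Pool.Agent.R928.GF
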