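import Pool.Agent.R928.GF.Copy
import Pool.Agent.R928.GF.Defs

/-! `X` is guarded Fraisse. -/

set_option autoImplicit false
set_option linter.all false

open scoped ENNReal Topology
open Filter

namespace Pool.Agent.R928.GF

/-! ### finite sections -/

theorem sg_add (j : ℕ) (v w : Bk j) : sg j (v + w) = sg j v + sg j w := lp.single_add (E := fun k : ℕ => Bk k) 2 j v w

theorem sg_smul (j : ℕ) (c : ℝ) (v : Bk j) : sg j (c • v) = c • sg j v := lp.single_smul (E := fun k : ℕ => Bk k) 2 j c v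

theorem sg_sub (j : ℕ) (v w : Bk j) : sg j (v - w) = sg j v - sg j w := lp.single_sub (E := fun k : ℕ => Bk k) 2 j v w

/-- the projection on the first `n` blocks -/
noncomputable def PP (n : ℕ) : XX →ₗ[ℝ] XX where
  toFun x := ∑ k ∈ Finset.range n, sg k (x k)
  map_add' x y := by
    rw [← Finset.sum_add_distrib]
    exact Finset.sum_congr rfl fun k _ => by rw [XX_add, sg_add]
  map_smul' c x := by
    rw [RingHom.id_apply, Finset.smul_sum]
    exact Finset.sum_congr rfl fun k _ => by rw [XX_smul, sg_smul]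

theorem PP_apply (n : ℕ) (x : XX) : PP n x = ∑ k ∈ Finset.range n, sg k (x k) := rfl

theorem PP_tendsto (x : XX) : Tendsto (fun n => PP n x) atTop (𝓝 x) := by
  have h := lp.hasSum_single (E := fun k : ℕ => Bk k) (p := 2) (by norm_num) x
  exact h.tendsto_sum_nat

theorem bv_decomp (k : ℕ) (w : Bk k) : w = w.1 0 • bv k 1 0 + w.1 1 • bv k 0 1 := by
  apply Bk_ext
  · change w.1 0 = w.1 0 * 1 + w.1 1 * 0
    ring
  · change w.1 1 = w.1 0 * 0 + w.1 1 * 1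
    ring

theorem bv_lin (k : ℕ) (a b : ℝ) : bv k a b = a • bv k 1 0 + b • bv k 0 1 := by
  apply Bk_ext
  · change a = a * 1 + b * 0
    ring
  · change b = a * 0 + b * 1
    ring

/-- the sections approximate a finite dimensional subspace uniformly -/
theorem unif (E : Submodule ℝ XX) [FiniteDimensional ℝ E] (ε : ℝ) (hε : 0 < ε) :
    ∃ n : ℕ, ∀ e ∈ E, ‖e - PP n e‖ ≤ ε * ‖e‖ := by
  obtain ⟨b, hb⟩ : ∃ b : Module.Basis (Fin (Module.finrank ℝ E)) ℝ E, b = Module.finBasis ℝ E := ⟨_, rfl⟩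
  obtain ⟨C, hC, hop⟩ := b.exists_opNorm_le (F := XX)
  have hev : ∀ i : Fin (Module.finrank ℝ E), ∀ᶠ n in atTop, ‖(b i : XX) - PP n (b i : XX)‖ < ε / C := by
    intro i
    have h1 : Tendsto (fun n => ‖(b i : XX) - PP n (b i : XX)‖) atTop (𝓝 ‖(b i : XX) - (b i : XX)‖) :=
      (tendsto_const_nhds.sub (PP_tendsto _)).norm
    rw [sub_self, norm_zero] at h1
    exact h1.eventually (gt_mem_nhds (by positivity))
  obtain ⟨n, hn⟩ := (eventually_all.mpr hev).exists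
  refine ⟨n, ?_⟩
  obtain ⟨A, hA⟩ : ∃ A : E →L[ℝ] XX, ∀ e : E, A e = (e : XX) - PP n (e : XX) :=
    ⟨LinearMap.toContinuousLinearMap (E.subtype - (PP n).comp E.subtype), fun e => rfl⟩
  have h2 : ‖A‖ ≤ C * (ε / C) := hop (by positivity) fun i => by
    rw [hA]
    exact (hn i).le
  intro e he
  have h3 := A.le_opNorm ⟨e, he⟩
  rw [hA] at h3
  refine h3.trans ?_
  have h4 : C * (ε / C) = ε := by field_simp
  rw [h4] at h2
  exact mul_le_mul_of_nonneg_right h2 (norm_nonneg _)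

/-! ### near the block -/

theorem sq_dev (δ z : ℝ) (h0 : 0 ≤ δ) (h1 : δ ≤ 1) (hz1 : (1 + δ)⁻¹ ≤ z) (hz2 : z ≤ 1 + δ) : |z ^ 2 - 1| ≤ 3 * δ := by
  have hpos : 0 < (1 + δ)⁻¹ := by positivity
  have h3 : 1 - δ ≤ (1 + δ)⁻¹ := by
    rw [← one_div, le_div_iff₀ (by linarith)]
    nlinarith
  have h4 : 1 - δ ≤ z := h3.trans hz1
  have hz : 0 < z := hpos.trans_le hz1
  rw [abs_le]
  constructor
  · nlinarith
  · nlinarith

/-- the hypothesis on `x, y`: almost isometric image of the block `j` -/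
def Near (j : ℕ) (δ : ℝ) (x y : XX) : Prop :=
  ∀ a b : ℝ, ‖bv j a b‖ = 1 → (1 + δ)⁻¹ ≤ ‖a • x + b • y‖ ∧ ‖a • x + b • y‖ ≤ 1 + δ

theorem Near.mono {j : ℕ} {δ δ' : ℝ} {x y : XX} (h : Near j δ x y) (h0 : 0 ≤ δ) (hδ : δ ≤ δ') : Near j δ' x y := by
  intro a b hab
  obtain ⟨h1, h2⟩ := h a b hab
  refine ⟨le_trans ?_ h1, h2.trans (by linarith)⟩
  exact inv_anti₀ (by linarith) (by linarith)

theorem copy' (j : ℕ) (η : ℝ) (hη : 0 < η) : ∃ δ0 : ℝ, 0 < δ0 ∧ ∀ δ : ℝ, 0 ≤ δ → δ ≤ δ0 → ∀ x y : XX, Near j δ x y →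
    ∃ u : Bool × Bool, ∀ w : Bk j, ‖(w.1 0 • x + w.1 1 • y) - sg j (sym j u w)‖ ≤ η * ‖w‖ := by
  obtain ⟨K, δ1, hK, hδ1, H⟩ := copy j
  refine ⟨min 1 (min (δ1 / 3) (η ^ 2 / (12 * K))), by positivity, ?_⟩
  intro δ hδ0 hδ x y hN
  have d1 : δ ≤ 1 := hδ.trans (min_le_left _ _)
  have d2 : δ ≤ δ1 / 3 := hδ.trans ((min_le_right _ _).trans (min_le_left _ _))
  have d3 : δ ≤ η ^ 2 / (12 * K) := hδ.trans ((min_le_right _ _).trans (min_le_right _ _))
  obtain ⟨x1, x2, x3, x4, x5, x6⟩ := hex j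
  have hdev : ∀ a b : ℝ, ‖bv j a b‖ = 1 → |‖a • x + b • y‖ ^ 2 - 1| ≤ 3 * δ := fun a b hab =>
    sq_dev δ _ hδ0 d1 (hN a b hab).1 (hN a b hab).2
  obtain ⟨u, hu1, hu2⟩ := H (3 * δ) (by linarith) (by linarith) x y (hdev _ _ x1) (hdev _ _ x2) (hdev _ _ x3) (hdev _ _ x4)
    (hdev _ _ x5) (hdev _ _ x6)
  have hKδ : K * (3 * δ) ≤ (η / 2) ^ 2 := by
    have : K * (3 * δ) ≤ K * (3 * (η ^ 2 / (12 * K))) := mul_le_mul_of_nonneg_left (by linarith) hK.le
    refine this.trans (le_of_eq ?_)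
    field_simp
    ring
  have g1 : ‖x - sg j (sym j u (bv j 1 0))‖ ≤ η / 2 := (sq_le_sq₀ (norm_nonneg _) (by positivity)).mp (hu1.trans hKδ)
  have g2 : ‖y - sg j (sym j u (bv j 0 1))‖ ≤ η / 2 := (sq_le_sq₀ (norm_nonneg _) (by positivity)).mp (hu2.trans hKδ)
  refine ⟨u, fun w => ?_⟩
  have e1 : sg j (sym j u w) = w.1 0 • sg j (sym j u (bv j 1 0)) + w.1 1 • sg j (sym j u (bv j 0 1)) := by
    conv_lhs => rw [bv_decomp j w]
    rw [map_add, map_smul, map_smul, sg_add, sg_smul, sg_smul]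
  have e2 : (w.1 0 • x + w.1 1 • y) - sg j (sym j u w) =
      w.1 0 • (x - sg j (sym j u (bv j 1 0))) + w.1 1 • (y - sg j (sym j u (bv j 0 1))) := by
    rw [e1]; module
  rw [e2]
  refine (norm_add_le _ _).trans ?_
  rw [norm_smul, norm_smul, Real.norm_eq_abs, Real.norm_eq_abs]
  have c0 := coord_le w 0
  have c1 := coord_le w 1
  have m1 : |w.1 0| * ‖x - sg j (sym j u (bv j 1 0))‖ ≤ ‖w‖ * (η / 2) :=
    mul_le_mul c0 g1 (norm_nonneg _) (norm_nonneg _)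
  have m2 : |w.1 1| * ‖y - sg j (sym j u (bv j 0 1))‖ ≤ ‖w‖ * (η / 2) :=
    mul_le_mul c1 g2 (norm_nonneg _) (norm_nonneg _)
  linarith

theorem copies (n : ℕ) (η : ℝ) (hη : 0 < η) : ∃ δ : ℝ, 0 < δ ∧ δ ≤ 1 ∧ ∀ j < n, ∀ x y : XX, Near j δ x y →
    ∃ u : Bool × Bool, ∀ w : Bk j, ‖(w.1 0 • x + w.1 1 • y) - sg j (sym j u w)‖ ≤ η * ‖w‖ := by
  induction n with
  | zero => exact ⟨1, one_pos, le_rfl, fun j hj => absurd hj (Nat.not_lt_zero j)⟩
  | succ n ih =>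
    obtain ⟨δ, h0, h1, h⟩ := ih
    obtain ⟨δ', h0', h'⟩ := copy' n η hη
    have hm0 : 0 < min δ δ' := lt_min h0 h0'
    refine ⟨min δ δ', hm0, (min_le_left _ _).trans h1, fun j hj x y hN => ?_⟩
    rcases Nat.lt_succ_iff_lt_or_eq.mp hj with hlt | heq
    · exact h j hlt x y (hN.mono hm0.le (min_le_left _ _))
    · subst heq
      exact h' _ hm0.le (min_le_right _ _) x y hN

/-- the finite dimensional guard -/
noncomputable def guard (E : Submodule ℝ XX) (n : ℕ) : Submodule ℝ XX :=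
  E ⊔ Submodule.span ℝ ((fun k => sg k (bv k 1 0)) '' (Finset.range n : Set ℕ) ∪ (fun k => sg k (bv k 0 1)) '' (Finset.range n : Set ℕ))

theorem guard_fin (E : Submodule ℝ XX) [FiniteDimensional ℝ E] (n : ℕ) : FiniteDimensional ℝ (guard E n) := by
  unfold guard
  have : FiniteDimensional ℝ (Submodule.span ℝ ((fun k => sg k (bv k 1 0)) '' (Finset.range n : Set ℕ) ∪
      (fun k => sg k (bv k 0 1)) '' (Finset.range n : Set ℕ))) :=
    FiniteDimensional.span_of_finite ℝ (((Finset.finite_toSet _).image _).union ((Finset.finite_toSet _).image _))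
  exact Submodule.finiteDimensional_sup _ _

theorem guard_le (E : Submodule ℝ XX) (n : ℕ) : E ≤ guard E n := le_sup_left

theorem guard_10 (E : Submodule ℝ XX) (n k : ℕ) (hk : k < n) : sg k (bv k 1 0) ∈ guard E n := by
  refine Submodule.mem_sup_right (Submodule.subset_span (Or.inl ⟨k, ?_, rfl⟩))
  simpa using hk

theorem guard_01 (E : Submodule ℝ XX) (n k : ℕ) (hk : k < n) : sg k (bv k 0 1) ∈ guard E n := by
  refine Submodule.mem_sup_right (Submodule.subset_span (Or.inr ⟨k, ?_, rfl⟩))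
  simpa using hk

theorem sg_bv (k : ℕ) (w : Bk k) : sg k w = w.1 0 • sg k (bv k 1 0) + w.1 1 • sg k (bv k 0 1) := by
  conv_lhs => rw [bv_decomp k w]
  rw [sg_add, sg_smul, sg_smul]

theorem guard_sg (E : Submodule ℝ XX) (n k : ℕ) (hk : k < n) (w : Bk k) : sg k w ∈ guard E n := by
  rw [sg_bv]
  exact Submodule.add_mem _ (Submodule.smul_mem _ _ (guard_10 E n k hk)) (Submodule.smul_mem _ _ (guard_01 E n k hk))

theorem guard_PP (E : Submodule ℝ XX) (n : ℕ) (x : XX) : PP n x ∈ guard E n := by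
  rw [PP_apply]
  exact Submodule.sum_mem _ fun k hk => guard_sg E n k (Finset.mem_range.mp hk) _

/-- an almost isometric embedding of the guard is close to a diagonal isometry on `E` -/
theorem near_diag (E : Submodule ℝ XX) (n : ℕ) (δ ε' η : ℝ) (hδ0 : 0 < δ) (hδ1 : δ ≤ 1) (hε' : 0 < ε') (hη : 0 < η)
    (hn : ∀ e ∈ E, ‖e - PP n e‖ ≤ ε' * ‖e‖)
    (hc : ∀ j < n, ∀ x y : XX, Near j δ x y →
      ∃ u : Bool × Bool, ∀ w : Bk j, ‖(w.1 0 • x + w.1 1 • y) - sg j (sym j u w)‖ ≤ η * ‖w‖)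
    (ι : guard E n →ₗ[ℝ] XX) (hι : ι ∈ Emb XX δ (guard E n)) :
    ∃ U : XX ≃ₗᵢ[ℝ] XX, ∀ e : E, ‖ι (Submodule.inclusion (guard_le E n) e) - U e‖ ≤ (n * η + 3 * ε') * ‖e‖ := by
  have hj : ∀ j < n, ∃ u : Bool × Bool, ∀ w : Bk j, ∀ hw : sg j w ∈ guard E n, ‖ι ⟨sg j w, hw⟩ - sg j (sym j u w)‖ ≤ η * ‖w‖ := by
    intro j hj
    obtain ⟨u, hu⟩ := hc j hj (ι ⟨sg j (bv j 1 0), guard_10 E n j hj⟩) (ι ⟨sg j (bv j 0 1), guard_01 E n j hj⟩) (by
      intro a b hab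
      rw [← map_smul, ← map_smul, ← map_add]
      have h1 := hι (a • ⟨sg j (bv j 1 0), guard_10 E n j hj⟩ + b • ⟨sg j (bv j 0 1), guard_01 E n j hj⟩)
      have h2 : ‖a • (⟨sg j (bv j 1 0), guard_10 E n j hj⟩ : guard E n) + b • ⟨sg j (bv j 0 1), guard_01 E n j hj⟩‖ = 1 := by
        change ‖a • sg j (bv j 1 0) + b • sg j (bv j 0 1)‖ = 1
        rw [← sg_smul, ← sg_smul, ← sg_add, ← bv_lin, sg_norm, hab]
      rw [h2, mul_one, mul_one] at h1
      exact h1)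
    refine ⟨u, fun w hw => ?_⟩
    have h1 := hu w
    rw [← map_smul, ← map_smul, ← map_add] at h1
    have h2 : (⟨sg j w, hw⟩ : guard E n) = w.1 0 • ⟨sg j (bv j 1 0), guard_10 E n j hj⟩ + w.1 1 • ⟨sg j (bv j 0 1), guard_01 E n j hj⟩ :=
      Subtype.ext (sg_bv j w)
    rw [h2]
    exact h1
  choose! u hu using hj
  refine ⟨diag fun k => sym k (u k), fun e => ?_⟩
  obtain ⟨U, hU⟩ : ∃ U : XX ≃ₗᵢ[ℝ] XX, U = diag fun k => sym k (u k) := ⟨_, rfl⟩
  rw [← hU]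
  have hPm := guard_PP E n (e : XX)
  have hem : (e : XX) ∈ guard E n := guard_le E n e.2
  have hrm : (e : XX) - PP n (e : XX) ∈ guard E n := Submodule.sub_mem _ hem hPm
  have hsplit : Submodule.inclusion (guard_le E n) e = (⟨PP n (e : XX), hPm⟩ : guard E n) + ⟨(e : XX) - PP n (e : XX), hrm⟩ := by
    apply Subtype.ext
    change (e : XX) = PP n (e : XX) + ((e : XX) - PP n (e : XX))
    abel
  have hP : (⟨PP n (e : XX), hPm⟩ : guard E n) = ∑ k : Fin n, ⟨sg k ((e : XX) k), guard_sg E n k k.2 _⟩ := by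
    apply Subtype.ext
    rw [Submodule.coe_sum]
    change ∑ k ∈ Finset.range n, sg k ((e : XX) k) = _
    rw [Finset.sum_range]
  have hUP : U (PP n (e : XX)) = ∑ k : Fin n, sg k (sym k (u k) ((e : XX) k)) := by
    rw [PP_apply, map_sum, Finset.sum_range]
    exact Finset.sum_congr rfl fun k _ => by rw [hU, diag_sg]
  have h1 : ‖ι ⟨PP n (e : XX), hPm⟩ - U (PP n (e : XX))‖ ≤ n * η * ‖e‖ := by
    rw [hP, map_sum, hUP, ← Finset.sum_sub_distrib]
    refine (norm_sum_le _ _).trans ?_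
    calc ∑ k : Fin n, ‖ι ⟨sg k ((e : XX) k), guard_sg E n k k.2 _⟩ - sg k (sym k (u k) ((e : XX) k))‖ ≤ ∑ k : Fin n, η * ‖e‖ := by
          refine Finset.sum_le_sum fun k _ => ?_
          refine (hu k k.2 _ _).trans ?_
          exact mul_le_mul_of_nonneg_left (coord_norm_le _ _) hη.le
      _ = n * η * ‖e‖ := by
          rw [Finset.sum_const, Finset.card_univ, Fintype.card_fin, nsmul_eq_mul]
          ring
  have h2 : ‖ι ⟨(e : XX) - PP n (e : XX), hrm⟩‖ ≤ 2 * (ε' * ‖e‖) := by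
    refine (hι _).2.trans ?_
    have h3 : ‖(⟨(e : XX) - PP n (e : XX), hrm⟩ : guard E n)‖ ≤ ε' * ‖e‖ := hn e e.2
    exact mul_le_mul (by linarith) h3 (norm_nonneg _) (by norm_num)
  have h4 : ‖U ((e : XX) - PP n (e : XX))‖ ≤ ε' * ‖e‖ := by
    rw [LinearIsometryEquiv.norm_map]
    exact hn e e.2
  have h5 : U (e : XX) = U (PP n (e : XX)) + U ((e : XX) - PP n (e : XX)) := by
    rw [← map_add]
    congr 1
    abel
  rw [hsplit, map_add, h5]
  have h6 : ι ⟨PP n (e : XX), hPm⟩ + ι ⟨(e : XX) - PP n (e : XX), hrm⟩ - (U (PP n (e : XX)) + U ((e : XX) - PP n (e : XX))) =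
      (ι ⟨PP n (e : XX), hPm⟩ - U (PP n (e : XX))) + ι ⟨(e : XX) - PP n (e : XX), hrm⟩ - U ((e : XX) - PP n (e : XX)) := by
    abel
  rw [h6]
  refine (norm_sub_le _ _).trans ?_
  refine (add_le_add (norm_add_le _ _) le_rfl).trans ?_
  linarith

theorem guarded : GuardedFraisse XX := by
  intro E hE ε hε
  obtain ⟨n, hn⟩ := unif E (ε / 20) (by positivity)
  have hn0 : (0 : ℝ) ≤ n := Nat.cast_nonneg n
  obtain ⟨δ, hδ0, hδ1, hc⟩ := copies n (ε / (20 * (n + 1))) (by positivity)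
  refine ⟨δ, hδ0, guard E n, guard_fin E n, guard_le E n, ?_⟩
  intro ι hι ι' hι'
  obtain ⟨U, hU⟩ := near_diag E n δ (ε / 20) _ hδ0 hδ1 (by positivity) (by positivity) hn hc ι hι
  obtain ⟨U', hU'⟩ := near_diag E n δ (ε / 20) _ hδ0 hδ1 (by positivity) (by positivity) hn hc ι' hι'
  have hq : n * (ε / (20 * (n + 1))) + 3 * (ε / 20) ≤ ε / 5 := by
    have h1 : n * (ε / (20 * (n + 1))) ≤ ε / 20 := by
      rw [mul_div_assoc', div_le_div_iff₀ (by positivity) (by norm_num)]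
      nlinarith
    linarith
  refine ⟨U.symm.trans U', 2 * (ε / 5), by positivity, by linarith, fun x => ?_⟩
  have h1 := (hU x).trans (mul_le_mul_of_nonneg_right hq (norm_nonneg _))
  have h2 := (hU' x).trans (mul_le_mul_of_nonneg_right hq (norm_nonneg _))
  have h3 : U' (x : XX) = (U.symm.trans U') (U (x : XX)) := by
    rw [LinearIsometryEquiv.trans_apply, LinearIsometryEquiv.symm_apply_apply]
  have h4 : ι' (Submodule.inclusion (guard_le E n) x) - (U.symm.trans U') (ι (Submodule.inclusion (guard_le E n) x)) =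
      (ι' (Submodule.inclusion (guard_le E n) x) - U' x) - (U.symm.trans U') (ι (Submodule.inclusion (guard_le E n) x) - U x) := by
    rw [map_sub, ← h3]
    abel
  rw [h4]
  refine (norm_sub_le _ _).trans ?_
  rw [LinearIsometryEquiv.norm_map]
  linarith

end Pool.Agent.R928.GF
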