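import Pool.Agent.R928.GF.Block

/-! The space `X` and almost isometric copies of the blocks. -/

set_option autoImplicit false
set_option linter.all false

namespace Pool.Agent.R928.GF

open scoped ENNReal

/-- the `ℓ²`-sum of the planes -/
abbrev XX : Type := lp (fun k : ℕ => Bk k) 2

instance instComplBk (k : ℕ) : CompleteSpace (Bk k) := FiniteDimensional.complete ℝ (Bk k)

theorem two_toReal : (2 : ℝ≥0∞).toReal = ((2 : ℕ) : ℝ) := by norm_num

theorem summ (x : XX) : Summable fun k => ‖x k‖ ^ 2 := by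
  have h := (memℓp_gen_iff (p := 2) (by norm_num)).mp (lp.memℓp x)
  rw [two_toReal] at h
  simpa only [Real.rpow_natCast] using h

theorem nsq (x : XX) : ‖x‖ ^ 2 = ∑' k, ‖x k‖ ^ 2 := by
  have h := lp.norm_rpow_eq_tsum (p := 2) (by norm_num) x
  rw [two_toReal] at h
  simpa only [Real.rpow_natCast] using h

theorem coord_norm_le (x : XX) (k : ℕ) : ‖x k‖ ≤ ‖x‖ := by
  have h1 : ‖x k‖ ^ 2 ≤ ‖x‖ ^ 2 := by
    rw [nsq]
    exact (summ x).le_tsum k fun i _ => by positivity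
  exact le_of_sq_le_sq' h1 (norm_nonneg _) where
  le_of_sq_le_sq' {a b : ℝ} (h : a ^ 2 ≤ b ^ 2) (hb : 0 ≤ b) : a ≤ b := by
    by_contra hcon
    push Not at hcon
    nlinarith

/-- one block -/
noncomputable def sg (j : ℕ) (w : Bk j) : XX := lp.single (E := fun k : ℕ => Bk k) 2 j w

theorem sg_norm (j : ℕ) (w : Bk j) : ‖sg j w‖ = ‖w‖ :=
  lp.norm_single (E := fun k : ℕ => Bk k) (p := 2) (by norm_num) j w

theorem sg_self (j : ℕ) (w : Bk j) : (sg j w) j = w := lp.single_apply_self (E := fun k : ℕ => Bk k) 2 j w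

theorem sg_ne (j k : ℕ) (w : Bk j) (h : k ≠ j) : (sg j w) k = 0 := lp.single_apply_ne (E := fun k : ℕ => Bk k) 2 j w h

theorem XX_add (x y : XX) (k : ℕ) : (x + y) k = x k + y k := rfl
theorem XX_sub (x y : XX) (k : ℕ) : (x - y) k = x k - y k := rfl
theorem XX_smul (a : ℝ) (x : XX) (k : ℕ) : (a • x) k = a • x k := rfl

/-! ### Isometries -/

/-- exchange of the coordinates -/
noncomputable def swp (k : ℕ) : Bk k ≃ₗᵢ[ℝ] Bk k where
  toFun v := bv k (v.1 1) (v.1 0)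
  invFun v := bv k (v.1 1) (v.1 0)
  left_inv v := Bk_ext rfl rfl
  right_inv v := Bk_ext rfl rfl
  map_add' v w := Bk_ext rfl rfl
  map_smul' c v := Bk_ext rfl rfl
  norm_map' v := by
    have h : ∀ v : Bk k, ‖bv k (v.1 1) (v.1 0)‖ ≤ ‖v‖ := by
      intro v
      refine norm_le_of _ _ (coord_le v 1) (coord_le v 0) ?_
      rw [bv_2, add_comm, ← Bk_two]
      exact coord_le v 2
    refine le_antisymm (h v) ?_
    have h2 := h (bv k (v.1 1) (v.1 0))
    have h3 : bv k ((bv k (v.1 1) (v.1 0)).1 1) ((bv k (v.1 1) (v.1 0)).1 0) = v := Bk_ext rfl rfl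
    rw [h3] at h2
    exact h2

/-- the four symmetries -/
noncomputable def sym (k : ℕ) (u : Bool × Bool) : Bk k ≃ₗᵢ[ℝ] Bk k :=
  (if u.2 then swp k else LinearIsometryEquiv.refl ℝ (Bk k)).trans
    (if u.1 then LinearIsometryEquiv.neg ℝ else LinearIsometryEquiv.refl ℝ (Bk k))

theorem memℓp_diag (f : ∀ k, Bk k ≃ₗᵢ[ℝ] Bk k) (x : XX) : Memℓp (fun k => f k (x k)) 2 := by
  rw [memℓp_gen_iff (by norm_num), two_toReal]
  simp only [LinearIsometryEquiv.norm_map, Real.rpow_natCast]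
  exact summ x

/-- diagonal isometries -/
noncomputable def diag (f : ∀ k, Bk k ≃ₗᵢ[ℝ] Bk k) : XX ≃ₗᵢ[ℝ] XX where
  toFun x := ⟨fun k => f k (x k), memℓp_diag f x⟩
  invFun x := ⟨fun k => (f k).symm (x k), memℓp_diag (fun k => (f k).symm) x⟩
  left_inv x := by
    apply lp.ext
    funext k
    exact (f k).symm_apply_apply (x k)
  right_inv x := by
    apply lp.ext
    funext k
    exact (f k).apply_symm_apply (x k)
  map_add' x y := by
    apply lp.ext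
    funext k
    exact (f k).map_add (x k) (y k)
  map_smul' c x := by
    apply lp.ext
    funext k
    exact (f k).map_smul c (x k)
  norm_map' x := by
    have h : ‖(⟨fun k => f k (x k), memℓp_diag f x⟩ : XX)‖ ^ 2 = ‖x‖ ^ 2 := by
      rw [nsq, nsq]
      congr 1
      funext k
      change ‖f k (x k)‖ ^ 2 = _
      rw [LinearIsometryEquiv.norm_map]
    exact (sq_eq_sq₀ (norm_nonneg _) (norm_nonneg _)).mp h

theorem diag_apply (f : ∀ k, Bk k ≃ₗᵢ[ℝ] Bk k) (x : XX) (k : ℕ) : (diag f x) k = f k (x k) := rfl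

theorem diag_sg (f : ∀ k, Bk k ≃ₗᵢ[ℝ] Bk k) (j : ℕ) (w : Bk j) : diag f (sg j w) = sg j (f j w) := by
  apply lp.ext
  funext k
  by_cases h : k = j
  · subst h
    rw [diag_apply, sg_self, sg_self]
  · rw [diag_apply, sg_ne _ _ _ h, sg_ne _ _ _ h, map_zero]

/-! ### Norms of the hexagon points -/

theorem bv_norm (j : ℕ) (a b : ℝ) (h1 : |a| ≤ 1) (h2 : |b| ≤ 1) (h3 : |sp j * (a + b)| ≤ 1)
    (h : |a| = 1 ∨ |b| = 1 ∨ |sp j * (a + b)| = 1) : ‖bv j a b‖ = 1 := by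
  apply le_antisymm
  · exact norm_le_of _ _ h1 h2 h3
  · rcases h with h | h | h
    · rw [← h]; exact coord_le (bv j a b) 0
    · rw [← h]; exact coord_le (bv j a b) 1
    · rw [← h]; exact coord_le (bv j a b) 2

theorem hex (j : ℕ) : ‖bv j 1 (-1)‖ = 1 ∧ ‖bv j 1 (1 / sp j - 1)‖ = 1 ∧ ‖bv j (1 / sp j - 1) 1‖ = 1 ∧
    ‖bv j 1 ((1 / sp j - 1 - 1) / 2)‖ = 1 ∧ ‖bv j ((1 + (1 / sp j - 1)) / 2) ((1 + (1 / sp j - 1)) / 2)‖ = 1 ∧
    ‖bv j ((1 / sp j - 1 - 1) / 2) 1‖ = 1 := by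
  have hs0 := sp_ge j
  have hs1 := sp_lt j
  have hs : 0 < sp j := by linarith
  have ht : (1 / sp j - 1) = 1 / sp j - 1 := rfl
  have hst : sp j * (1 + (1 / sp j - 1)) = 1 := by field_simp; ring
  have ht0 : 0 < 1 / sp j - 1 := by rw [sub_pos, lt_div_iff₀ hs]; linarith
  have ht1 : 1 / sp j - 1 ≤ 1 / 2 := by
    have : 1 / sp j ≤ 3 / 2 := by rw [div_le_iff₀ hs]; linarith
    linarith
  generalize (1 / sp j - 1) = t at *
  have o1 : |(1 : ℝ)| = 1 := abs_one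
  refine ⟨?_, ?_, ?_, ?_, ?_, ?_⟩
  · refine bv_norm j _ _ (by norm_num) (by norm_num) (by norm_num) (Or.inl o1)
  · refine bv_norm j _ _ (by norm_num) (abs_le.mpr ⟨by linarith, by linarith⟩) (by rw [hst]; norm_num) (Or.inl o1)
  · refine bv_norm j _ _ (abs_le.mpr ⟨by linarith, by linarith⟩) (by norm_num) (by rw [add_comm, hst]; norm_num) (Or.inr (Or.inl o1))
  · have e : sp j * (1 + (t - 1) / 2) = 1 / 2 := by linarith
    refine bv_norm j _ _ (by norm_num) (abs_le.mpr ⟨by linarith, by linarith⟩) (by rw [e]; norm_num [abs_of_pos]) (Or.inl o1)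
  · have e : sp j * ((1 + t) / 2 + (1 + t) / 2) = 1 := by linarith
    refine bv_norm j _ _ (abs_le.mpr ⟨by linarith, by linarith⟩) (abs_le.mpr ⟨by linarith, by linarith⟩) (by rw [e]; norm_num)
      (Or.inr (Or.inr (by rw [e]; norm_num)))
  · have e : sp j * ((t - 1) / 2 + 1) = 1 / 2 := by linarith
    refine bv_norm j _ _ (abs_le.mpr ⟨by linarith, by linarith⟩) (by norm_num) (by rw [e]; norm_num [abs_of_pos]) (Or.inr (Or.inl o1))

/-! ### `ℓ²` estimates along an edge -/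

theorem edge_l2 (A B M : ℕ → ℝ) (δ : ℝ) (hA : Summable fun k => A k ^ 2) (hB : Summable fun k => B k ^ 2)
    (hM : Summable fun k => M k ^ 2) (h0 : ∀ k, 0 ≤ M k) (h1 : ∀ k, 2 * M k ≤ A k + B k)
    (a1 : ∑' k, A k ^ 2 ≤ 1 + δ) (b1 : ∑' k, B k ^ 2 ≤ 1 + δ) (m1 : 1 - δ ≤ ∑' k, M k ^ 2) :
    (Summable fun k => (A k - B k) ^ 2) ∧ ∑' k, (A k - B k) ^ 2 ≤ 8 * δ ∧
    (Summable fun k => (M k - A k) ^ 2) ∧ ∑' k, (M k - A k) ^ 2 ≤ 4 * δ := by
  have hS1 : Summable fun k => (2 * A k ^ 2 + 2 * B k ^ 2) - 4 * M k ^ 2 :=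
    ((hA.mul_left 2).add (hB.mul_left 2)).sub (hM.mul_left 4)
  have hS2 : Summable fun k => (A k ^ 2 + B k ^ 2) - 2 * M k ^ 2 := (hA.add hB).sub (hM.mul_left 2)
  have p1 : ∀ k, (A k - B k) ^ 2 ≤ (2 * A k ^ 2 + 2 * B k ^ 2) - 4 * M k ^ 2 := by
    intro k
    have : (2 * M k) ^ 2 ≤ (A k + B k) ^ 2 := pow_le_pow_left₀ (by linarith [h0 k]) (h1 k) 2
    nlinarith
  have p2 : ∀ k, (M k - A k) ^ 2 ≤ (A k ^ 2 + B k ^ 2) - 2 * M k ^ 2 := by
    intro k
    nlinarith [mul_nonneg (h0 k) (sub_nonneg.mpr (h1 k)), sq_nonneg (A k + B k - 2 * M k), sq_nonneg (B k - M k),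
      sq_nonneg (A k - B k)]
  have q1 : Summable fun k => (A k - B k) ^ 2 := Summable.of_nonneg_of_le (fun k => sq_nonneg _) p1 hS1
  have q2 : Summable fun k => (M k - A k) ^ 2 := Summable.of_nonneg_of_le (fun k => sq_nonneg _) p2 hS2
  refine ⟨q1, ?_, q2, ?_⟩
  · refine (q1.tsum_le_tsum p1 hS1).trans ?_
    rw [((hA.mul_left 2).add (hB.mul_left 2)).tsum_sub (hM.mul_left 4), (hA.mul_left 2).tsum_add (hB.mul_left 2),
      tsum_mul_left, tsum_mul_left, tsum_mul_left]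
    linarith
  · refine (q2.tsum_le_tsum p2 hS2).trans ?_
    rw [(hA.add hB).tsum_sub (hM.mul_left 2), hA.tsum_add hB, tsum_mul_left]
    linarith

end Pool.Agent.R928.GF
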